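import Pool.Agent.R135.MG.Stm

namespace Pool.Agent.R135.MG.Asm

open Pool.Agent.R135.MG

open Finset Filter

lemma mem_prs {n : ℕ} {X : Finset (Fin n)} {p : Fin n × Fin n} :
    p ∈ prs X ↔ p.1 ∈ X ∧ p.2 ∈ X ∧ p.1 < p.2 := by
  unfold prs; simp [and_assoc]

/-- in an `(s,q)`-graph on `n ≥ s ≥ 2` vertices every multiplicity is at most `q` -/
lemma w_le {n s q : ℕ} (hs : 2 ≤ s) (hn : s ≤ n) {w : Fin n → Fin n → ℕ} (h : IsSQ s q w)
    {i j : Fin n} (hij : i < j) : w i j ≤ q := by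
  obtain ⟨X, hX1, hX2⟩ := Finset.exists_superset_card_eq (s := ({i, j} : Finset (Fin n))) (n := s)
    (by rw [Finset.card_pair hij.ne]; exact hs) (by simpa using hn)
  refine le_trans ?_ (h X hX2)
  unfold eOn
  exact Finset.single_le_sum (f := fun p : Fin n × Fin n => w p.1 p.2) (fun _ _ => Nat.zero_le _)
    (mem_prs.2 ⟨hX1 (by simp), hX1 (by simp), hij⟩ : (i, j) ∈ prs X)

lemma prodW_le {n q : ℕ} {w : Fin n → Fin n → ℕ} (h : ∀ i j, i < j → w i j ≤ q) :
    prodW w ≤ q ^ (prs (univ : Finset (Fin n))).card := by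
  unfold prodW
  refine le_trans (Finset.prod_le_prod' (g := fun _ => q) ?_) (by simp)
  intro p hp
  exact h _ _ (mem_prs.1 hp).2.2

lemma bdd_exP {n s q : ℕ} (hs : 2 ≤ s) (hn : s ≤ n) :
    BddAbove {p | ∃ w : Fin n → Fin n → ℕ, Symm w ∧ IsSQ s q w ∧ p = prodW w} := by
  refine ⟨q ^ (prs (univ : Finset (Fin n))).card, ?_⟩
  rintro p ⟨w, -, h, rfl⟩
  exact prodW_le fun i j hij => w_le hs hn h hij

lemma le_exP {n s q : ℕ} (hs : 2 ≤ s) (hn : s ≤ n) {w : Fin n → Fin n → ℕ} (h1 : Symm w)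
    (h2 : IsSQ s q w) : prodW w ≤ exP n s q :=
  le_csSup (bdd_exP hs hn) ⟨w, h1, h2, rfl⟩

lemma exP_mem {n s q : ℕ} (hs : 2 ≤ s) (hn : s ≤ n) {w : Fin n → Fin n → ℕ} (h1 : Symm w)
    (h2 : IsSQ s q w) : ∃ w' : Fin n → Fin n → ℕ, Symm w' ∧ IsSQ s q w' ∧ exP n s q = prodW w' :=
  Nat.sSup_mem (s := {p | ∃ w : Fin n → Fin n → ℕ, Symm w ∧ IsSQ s q w ∧ p = prodW w})
    ⟨prodW w, w, h1, h2, rfl⟩ (bdd_exP hs hn)

lemma isT_le {r d a n : ℕ} {w : Fin n → Fin n → ℕ} (h : IsT r d a w) {i j : Fin n} (hij : i ≠ j) :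
    w i j ≤ a + 1 := by
  obtain ⟨-, f, hf⟩ := h
  rw [hf i j hij]
  split_ifs <;> omega

lemma isT_exists (d a n : ℕ) : ∃ w : Fin n → Fin n → ℕ, IsT 2 d a w := by
  refine ⟨fun _ _ => a, fun _ _ => rfl, fun _ => 1, fun i j _ => ?_⟩
  simp

lemma PiT_mem (a n : ℕ) : ∃ w : Fin n → Fin n → ℕ, IsT 2 1 a w ∧ PiT 2 1 a n = prodW w := by
  have hne : {p | ∃ w : Fin n → Fin n → ℕ, IsT 2 1 a w ∧ p = prodW w}.Nonempty := by
    obtain ⟨w, hw⟩ := isT_exists 1 a n
    exact ⟨_, w, hw, rfl⟩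
  have hb : BddAbove {p | ∃ w : Fin n → Fin n → ℕ, IsT 2 1 a w ∧ p = prodW w} := by
    refine ⟨(a + 1) ^ (prs (univ : Finset (Fin n))).card, ?_⟩
    rintro p ⟨w, h, rfl⟩
    exact prodW_le fun i j hij => isT_le h hij.ne
  exact Nat.sSup_mem hne hb

lemma isT_pos {a n : ℕ} (ha : 2 ≤ a) {w : Fin n → Fin n → ℕ} (h : IsT 2 1 a w) {i j : Fin n}
    (hij : i ≠ j) : 1 ≤ w i j := by
  obtain ⟨-, f, hf⟩ := h
  rw [hf i j hij]
  split_ifs <;> omega

lemma l1_pos {a : ℕ} (ha : 2 ≤ a) : 0 < l1 a := by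
  unfold l1
  have h : (0:ℝ) < a := by positivity
  have := Real.log_lt_log h (by linarith : (a:ℝ) < a + 1)
  linarith

lemma l2_pos {a : ℕ} (ha : 2 ≤ a) : 0 < l2 a := by
  unfold l2
  have h : (2:ℝ) ≤ a := by exact_mod_cast ha
  have := Real.log_lt_log (by linarith : (0:ℝ) < a - 1) (by linarith : (a:ℝ) - 1 < a + 1)
  linarith

lemma HH_pos {a : ℕ} (ha : 2 ≤ a) : 0 < HH a := by
  have h1 := l1_pos ha
  have h2 := l2_pos ha
  have h : (2:ℝ) ≤ a := by exact_mod_cast ha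
  have h3 : l1 a * l2 a / (l1 a + l2 a) ≤ l1 a := by
    rw [div_le_iff₀ (by linarith)]; nlinarith
  have h4 : Real.log a = Real.log ((a:ℝ) + 1) - l1 a := by unfold l1; ring
  have h5 : 0 < Real.log a := Real.log_pos (by linarith)
  unfold HH; linarith

/-- limit helper -/
lemma base (hP : PatStm) (hU : UpStm) (hL : LowStm) (hS : SigStm) (hT : TsqStm) :
    ∀ a : ℕ, 2 ≤ a → A 2 1 a 4 := by
  intro a ha
  obtain ⟨C, hC⟩ := hU hP a ha
  obtain ⟨C', hC'⟩ := hL a ha
  have hH := HH_pos ha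
  rw [A]
  rw [show SigT 2 1 a 4 = 6 * a + 3 from hS.2 a (by omega)]
  set E : ℕ → ℝ := fun n => (exP n 4 (6 * a + 3) : ℝ) with hE
  set Q : ℕ → ℝ := fun n => (PiT 2 1 a n : ℝ) with hQ
  -- facts for n ≥ 4
  have key : ∀ n, 4 ≤ n → Q n ≤ E n ∧ Real.log (E n) ≤ HH a * (n : ℝ) ^ 2 / 2 + C * n := by
    intro n hn
    obtain ⟨w, hw1, hw2⟩ := PiT_mem a n
    have hsq := hT a n (by omega) w hw1
    have h1 : PiT 2 1 a n ≤ exP n 4 (6 * a + 3) := by
      rw [hw2]; exact le_exP (by norm_num) hn hw1.1 hsq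
    obtain ⟨w', hw'1, hw'2, hw'3⟩ := exP_mem (by norm_num : 2 ≤ 4) hn hw1.1 hsq
    have hpos : 1 ≤ prodW w' := by
      rw [← hw'3]; exact le_trans (hC' n).2 h1
    have hall : ∀ i j, i < j → 1 ≤ w' i j := by
      intro i j hij
      by_contra hlt
      have h0 : w' i j = 0 := by omega
      have : prodW w' = 0 := by
        unfold prodW
        exact Finset.prod_eq_zero (i := (i, j)) (mem_prs.2 ⟨mem_univ _, mem_univ _, hij⟩) h0
      omega
    have hall' : ∀ i j, i ≠ j → 1 ≤ w' i j := by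
      intro i j hij
      rcases lt_or_gt_of_ne hij with h | h
      · exact hall i j h
      · rw [hw'1 i j]; exact hall j i h
    have := hC n hn w' hw'1 hw'2 hall'
    refine ⟨by simp only [hQ, hE]; exact_mod_cast h1, ?_⟩
    simp only [hE]; rw [hw'3]; exact this
  -- eventually log Q ≥ HH n^2 / 4
  have hev : ∀ᶠ n : ℕ in atTop, 4 ≤ n ∧ HH a * (n : ℝ) ^ 2 / 4 ≤ Real.log (Q n) := by
    have h1 : ∀ᶠ n : ℕ in atTop, 4 * |C'| / HH a ≤ (n : ℝ) :=
      (tendsto_natCast_atTop_atTop (R := ℝ)).eventually_ge_atTop _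
    filter_upwards [h1, eventually_ge_atTop 4] with n hn hn4
    refine ⟨hn4, ?_⟩
    have h2 := (hC' n).1
    rw [div_le_iff₀ hH] at hn
    have hn0 : (0:ℝ) ≤ n := by positivity
    have h3 : C' ≤ |C'| := le_abs_self _
    simp only [hQ]
    nlinarith
  refine ⟨fun n => Real.log (E n) / Real.log (Q n) - 1, ?_, ?_⟩
  · -- squeeze
    have hub : Tendsto (fun n : ℕ => (4 * (|C| + |C'|) / HH a) / (n : ℝ)) atTop (nhds 0) :=
      tendsto_const_div_atTop_nhds_zero_nat _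
    refine tendsto_of_tendsto_of_tendsto_of_le_of_le' tendsto_const_nhds hub ?_ ?_
    · filter_upwards [hev] with n hn
      have hQ1 : 0 < Real.log (Q n) := by
        have : (4:ℝ) ≤ n := by exact_mod_cast hn.1
        have : 0 < HH a * (n : ℝ) ^ 2 / 4 := by positivity
        linarith [hn.2]
      have hQ0 : 1 ≤ Q n := by simp only [hQ]; exact_mod_cast (hC' n).2
      have : Real.log (Q n) ≤ Real.log (E n) := Real.log_le_log (by linarith) (key n hn.1).1
      have h3 : 1 ≤ Real.log (E n) / Real.log (Q n) := by rw [le_div_iff₀ hQ1]; linarith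
      simp only [ge_iff_le]; linarith
    · filter_upwards [hev] with n hn
      have hn4 : (4:ℝ) ≤ n := by exact_mod_cast hn.1
      have hn0 : (0:ℝ) < n := by linarith
      have hQ1 : 0 < Real.log (Q n) := by
        have : 0 < HH a * (n : ℝ) ^ 2 / 4 := by positivity
        linarith [hn.2]
      have hE1 := (key n hn.1).2
      have hQ2 := (hC' n).1
      have h4 : Real.log (E n) - Real.log (Q n) ≤ (|C| + |C'|) * n := by
        have h5 : C ≤ |C| := le_abs_self _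
        have h6 : C' ≤ |C'| := le_abs_self _
        simp only [hQ] at hQ2 ⊢
        nlinarith
      have h5 : Real.log (E n) / Real.log (Q n) - 1 = (Real.log (E n) - Real.log (Q n)) / Real.log (Q n) := by
        field_simp
      show Real.log (E n) / Real.log (Q n) - 1 ≤ _
      rw [h5, div_le_iff₀ hQ1]
      have h6 : 4 * (|C| + |C'|) / HH a / (n:ℝ) * (HH a * (n : ℝ) ^ 2 / 4) = (|C| + |C'|) * n := by
        field_simp
      have h7 : 0 ≤ 4 * (|C| + |C'|) / HH a / (n:ℝ) := by positivity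
      calc Real.log (E n) - Real.log (Q n) ≤ (|C| + |C'|) * n := h4
        _ = 4 * (|C| + |C'|) / HH a / (n:ℝ) * (HH a * (n : ℝ) ^ 2 / 4) := h6.symm
        _ ≤ 4 * (|C| + |C'|) / HH a / (n:ℝ) * Real.log (Q n) :=
            mul_le_mul_of_nonneg_left hn.2 h7
  · filter_upwards [hev] with n hn
    have hn4 : (4:ℝ) ≤ n := by exact_mod_cast hn.1
    have hQ1 : 0 < Real.log (Q n) := by
      have : 0 < HH a * (n : ℝ) ^ 2 / 4 := by positivity
      linarith [hn.2]
    have hQ0 : 1 ≤ Q n := by simp only [hQ]; exact_mod_cast (hC' n).2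
    have hE0 : 0 < E n := by linarith [(key n hn.1).1]
    show E n = Q n ^ (1 + (Real.log (E n) / Real.log (Q n) - 1))
    rw [Real.rpow_def_of_pos (by linarith)]
    rw [show Real.log (Q n) * (1 + (Real.log (E n) / Real.log (Q n) - 1)) = Real.log (E n) by
      field_simp; ring]
    rw [Real.exp_log hE0]

lemma numeric : HH 3 < (259 * Real.log 2 + 160 * Real.log 3) / 300 := by
  have h4 : Real.log ((3:ℕ) + 1 : ℝ) = 2 * Real.log 2 := by
    rw [show ((3:ℕ) + 1 : ℝ) = 2 ^ 2 by norm_num, Real.log_pow]; norm_num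
  have e1 : l1 3 = 2 * Real.log 2 - Real.log 3 := by unfold l1; rw [h4]; norm_num
  have e2 : l2 3 = Real.log 2 := by
    unfold l2; rw [h4, show ((3:ℕ) - 1 : ℝ) = 2 by norm_num]; ring
  have hA : 17 * Real.log 2 < 11 * Real.log 3 := by
    have := Real.log_lt_log (by norm_num : (0:ℝ) < 2 ^ 17) (by norm_num : (2:ℝ) ^ 17 < 3 ^ 11)
    rw [Real.log_pow, Real.log_pow] at this; exact_mod_cast this
  have hB : 3 * Real.log 3 < 5 * Real.log 2 := by
    have := Real.log_lt_log (by norm_num : (0:ℝ) < 3 ^ 3) (by norm_num : (3:ℝ) ^ 3 < 2 ^ 5)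
    rw [Real.log_pow, Real.log_pow] at this; exact_mod_cast this
  have h2 : 0 < Real.log 2 := Real.log_pos (by norm_num)
  unfold HH
  rw [e1, e2, h4]
  set x := Real.log 2
  set y := Real.log 3
  have hs : 0 < 2 * x - y + x := by linarith
  have hl : 0 < 2 * x - y := by linarith
  rw [sub_lt_comm, lt_div_iff₀ hs]
  -- with u = 2x - y : x > 2.2 u, x < 3 u
  have hu1 : 11 * (2 * x - y) < 5 * x := by linarith
  have hu2 : x < 3 * (2 * x - y) := by linarith
  nlinarith [mul_pos (sub_pos.2 hu1) (sub_pos.2 hu2), mul_pos hl (sub_pos.2 hu1)]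

lemma fail (hP : PatStm) (hU : UpStm) (hB : BlowStm) (hS : SigStm) (hT : TsqStm) :
    ¬ A 2 1 3 510 := by
  rintro ⟨ε, hε, hev⟩
  obtain ⟨C, hC⟩ := hU hP 3 (by norm_num)
  set K : ℝ := (259 * Real.log 2 + 160 * Real.log 3) / 300 with hK
  have hnum := numeric
  -- along n = 300 N
  have hmul : Tendsto (fun N : ℕ => 300 * N) atTop atTop :=
    Filter.tendsto_atTop_mono (fun N => by show N ≤ 300 * N; omega) tendsto_id
  have hev' := hmul.eventually hev
  have hε' := hε.comp hmul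
  have h1 : ∀ᶠ N : ℕ in atTop, K ≤ (1 + ε (300 * N)) * (HH 3 + (2 * |C| / 300) / N) := by
    have hε1 : ∀ᶠ N : ℕ in atTop, -1 < ε (300 * N) :=
      hε'.eventually (lt_mem_nhds (by norm_num : (-1:ℝ) < 0))
    filter_upwards [hev', hε1, eventually_ge_atTop 2] with N hN hNe hN2
    obtain ⟨w, hw1, hw2, hw3, hw4⟩ := hB N hN2
    have hn : 510 ≤ 300 * N := by omega
    have hsq : IsSQ 510 (SigT 2 1 3 510) w := fun X hX => le_trans (hw2 X hX) hS.1
    have hle := le_exP (by norm_num : 2 ≤ 510) hn hw1 hsq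
    obtain ⟨t, ht1, ht2⟩ := PiT_mem 3 (300 * N)
    have htsq := hT 3 (300 * N) (by norm_num) t ht1
    have hup := hC (300 * N) (by omega) t ht1.1 htsq (fun i j hij => isT_pos (by norm_num) ht1 hij)
    have hwpos : 1 ≤ prodW w := by
      unfold prodW; exact Finset.one_le_prod' fun p _ => hw3 _ _
    have htpos : 1 ≤ prodW t := by
      unfold prodW
      exact Finset.one_le_prod' fun p hp => isT_pos (by norm_num) ht1 (mem_prs.1 hp).2.2.ne
    have hlog : Real.log (exP (300 * N) 510 (SigT 2 1 3 510)) =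
        (1 + ε (300 * N)) * Real.log (PiT 2 1 3 (300 * N)) := by
      rw [hN, Real.log_rpow]
      rw [ht2]; exact_mod_cast htpos
    have hlow : Real.log (prodW w) ≤ Real.log (exP (300 * N) 510 (SigT 2 1 3 510)) := by
      apply Real.log_le_log
      · exact_mod_cast hwpos
      · exact_mod_cast hle
    rw [hlog, hw4, ht2] at hlow
    have hNpos : (0:ℝ) < N := by
      have : 0 < N := by omega
      exact_mod_cast this
    have h1e : 0 < 1 + ε (300 * N) := by linarith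
    have h5 : (N : ℝ) ^ 2 / 2 * (300 * (259 * Real.log 2 + 160 * Real.log 3)) =
        45000 * (N : ℝ) ^ 2 * K := by rw [hK]; ring
    have h6 : Real.log (prodW t) ≤ 45000 * (N : ℝ) ^ 2 * (HH 3 + (2 * |C| / 300) / N) := by
      have h7 : HH 3 * ((300 * N : ℕ) : ℝ) ^ 2 / 2 + C * ((300 * N : ℕ) : ℝ) ≤
          45000 * (N : ℝ) ^ 2 * (HH 3 + (2 * |C| / 300) / N) := by
        push_cast
        have h8 : 45000 * (N : ℝ) ^ 2 * (HH 3 + (2 * |C| / 300) / N) =
            45000 * (N:ℝ)^2 * HH 3 + 300 * |C| * N := by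
          field_simp; ring
        rw [h8]
        have : C ≤ |C| := le_abs_self _
        nlinarith
      linarith
    have h9 : 45000 * (N : ℝ) ^ 2 * K ≤ 45000 * (N : ℝ) ^ 2 *
        ((1 + ε (300 * N)) * (HH 3 + (2 * |C| / 300) / N)) := by
      calc 45000 * (N : ℝ) ^ 2 * K ≤ (1 + ε (300 * N)) * Real.log (prodW t) := by rw [← h5]; exact hlow
        _ ≤ (1 + ε (300 * N)) * (45000 * (N : ℝ) ^ 2 * (HH 3 + (2 * |C| / 300) / N)) :=
            mul_le_mul_of_nonneg_left h6 h1e.le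
        _ = _ := by ring
    exact le_of_mul_le_mul_left h9 (by positivity)
  have hlim : Tendsto (fun N : ℕ => (1 + ε (300 * N)) * (HH 3 + (2 * |C| / 300) / N)) atTop
      (nhds ((1 + 0) * (HH 3 + 0))) :=
    (tendsto_const_nhds.add hε').mul
      (tendsto_const_nhds.add (tendsto_const_div_atTop_nhds_zero_nat _))
  have := ge_of_tendsto hlim h1
  linarith

theorem assembly (hP : PatStm) (hU : UpStm) (hL : LowStm) (hB : BlowStm) (hS : SigStm)
    (hT : TsqStm) :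
    (∀ a, 2 ≤ a → A 2 1 a (s0 2 1)) ∧ ¬ A 2 1 3 510 ∧
    ¬ (∀ r d : ℕ, 1 ≤ r → (∀ a, d + 1 ≤ a → A r d a (s0 r d)) →
      ∀ s, s0 r d ≤ s → ∀ a, d + 1 ≤ a → A r d a s) := by
  have h1 := base hP hU hL hS hT
  have h2 := fail hP hU hB hS hT
  have h3 : ∀ a, 2 ≤ a → A 2 1 a (s0 2 1) := h1
  refine ⟨h3, h2, fun h => h2 (h 2 1 (by norm_num) h3 510 ?_ 3 (by norm_num))⟩
  decide

end Pool.Agent.R135.MG.Asm
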