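import Mathlib

/-! Definitions and statements for MP_529160_co (product-extremal multigraphs). -/

namespace Pool.Agent.R135.MG

open Finset Filter

/-- A multigraph on `Fin n` is a symmetric function (the diagonal is ignored). -/
def Symm {n : ℕ} (w : Fin n → Fin n → ℕ) : Prop := ∀ i j, w i j = w j i

/-- The pairs `i < j` inside `X`. -/
def prs {n : ℕ} (X : Finset (Fin n)) : Finset (Fin n × Fin n) :=
  (X ×ˢ X).filter (fun p => p.1 < p.2)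

/-- Total multiplicity of the pairs inside `X`. -/
def eOn {n : ℕ} (w : Fin n → Fin n → ℕ) (X : Finset (Fin n)) : ℕ :=
  ∑ p ∈ prs X, w p.1 p.2

/-- Product of all multiplicities. -/
def prodW {n : ℕ} (w : Fin n → Fin n → ℕ) : ℕ :=
  ∏ p ∈ prs (univ : Finset (Fin n)), w p.1 p.2

/-- `(s,q)`-graphs. -/
def IsSQ (s q : ℕ) {n : ℕ} (w : Fin n → Fin n → ℕ) : Prop :=
  ∀ X : Finset (Fin n), X.card = s → eOn w X ≤ q

/-- `ex_Π(n,s,q)`. -/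
noncomputable def exP (n s q : ℕ) : ℕ :=
  sSup {p | ∃ w : Fin n → Fin n → ℕ, Symm w ∧ IsSQ s q w ∧ p = prodW w}

/-- `w` is a member of `T_{r,d}(a,n)`: there is a partition into `r` parts (given by `f`), pairs
inside part `0` have multiplicity `a-d`, pairs inside another part have multiplicity `a`, all other
pairs have multiplicity `a+1`. -/
def IsT (r d a : ℕ) {n : ℕ} (w : Fin n → Fin n → ℕ) : Prop :=
  Symm w ∧ ∃ f : Fin n → Fin r, ∀ i j, i ≠ j →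
    w i j = if f i ≠ f j then a + 1 else if (f i : ℕ) = 0 then a - d else a

/-- `Σ_{r,d}(a,n)`. -/
noncomputable def SigT (r d a n : ℕ) : ℕ :=
  sSup {e | ∃ w : Fin n → Fin n → ℕ, IsT r d a w ∧ e = eOn w univ}

/-- `Π_{r,d}(a,n)`. -/
noncomputable def PiT (r d a n : ℕ) : ℕ :=
  sSup {p | ∃ w : Fin n → Fin n → ℕ, IsT r d a w ∧ p = prodW w}

/-- `A(r,d,a,s)`: `ex_Π(n,s,Σ_{r,d}(a,s)) = Π_{r,d}(a,n)^{1+o(1)}`. -/
def A (r d a s : ℕ) : Prop :=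
  ∃ ε : ℕ → ℝ, Tendsto ε atTop (nhds 0) ∧
    ∀ᶠ n : ℕ in atTop, (exP n s (SigT r d a s) : ℝ) = (PiT r d a n : ℝ) ^ (1 + ε n)

/-- `s_0(r,d) = (r-1)(d+1)+2`. -/
def s0 (r d : ℕ) : ℕ := (r - 1) * (d + 1) + 2

/-! ### The pieces -/

/-- coefficients of the quadratic form of a pattern -/
noncomputable def cf {V : Type} [DecidableEq V] (Z W : V → V → Prop) [DecidableRel Z]
    [DecidableRel W] (ρ : ℝ) (i j : V) : ℝ :=
  if i = j then ρ else if Z i j then 0 else if W i j then ρ else 1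

/-- PAT: the weighted pattern lemma. -/
def PatStm : Prop :=
  ∀ (V : Type) [Fintype V] [DecidableEq V] (Z W : V → V → Prop) [DecidableRel Z] [DecidableRel W]
    (ρ : ℝ), 2 ≤ ρ → ρ ≤ 4 →
    (∀ i j, Z i j → Z j i) → (∀ i j, W i j → W j i) → (∀ i, ¬ Z i i) →
    (∀ i j k, Z i j → Z j k → ¬ Z i k) →
    (∀ a b c d, a ≠ c → b ≠ d → Z a b → Z b c → Z c d → Z d a → W a c ∨ W b d) →
    ∀ x : V → ℝ, (∀ i, 0 ≤ x i) → ∑ i, x i = 1 →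
      ρ / (1 + ρ) ≤ ∑ i, ∑ j, cf Z W ρ i j * x i * x j

noncomputable def l1 (a : ℕ) : ℝ := Real.log ((a : ℝ) + 1) - Real.log a
noncomputable def l2 (a : ℕ) : ℝ := Real.log ((a : ℝ) + 1) - Real.log ((a : ℝ) - 1)

/-- limiting log-density of `Π_{2,1}(a,n)` -/
noncomputable def HH (a : ℕ) : ℝ := Real.log ((a : ℝ) + 1) - l1 a * l2 a / (l1 a + l2 a)

/-- UP: upper bound for `(4,6a+3)`-graphs. -/
def UpStm : Prop :=
  PatStm → ∀ a : ℕ, 2 ≤ a → ∃ C : ℝ, ∀ n : ℕ, 4 ≤ n → ∀ w : Fin n → Fin n → ℕ, Symm w →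
    IsSQ 4 (6 * a + 3) w → (∀ i j, i ≠ j → 1 ≤ w i j) →
    Real.log (prodW w) ≤ HH a * (n : ℝ) ^ 2 / 2 + C * n

/-- LOW: lower bound for `Π_{2,1}(a,n)`. -/
def LowStm : Prop :=
  ∀ a : ℕ, 2 ≤ a → ∃ C : ℝ, ∀ n : ℕ,
    HH a * (n : ℝ) ^ 2 / 2 - C * n ≤ Real.log (PiT 2 1 a n) ∧ 1 ≤ PiT 2 1 a n

/-- BLOW: the blow-up of the line graph of `K_6`. -/
def BlowStm : Prop :=
  ∀ N : ℕ, 2 ≤ N → ∃ w : Fin (300 * N) → Fin (300 * N) → ℕ, Symm w ∧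
    IsSQ 510 432820 w ∧ (∀ i j, 1 ≤ w i j) ∧
    Real.log (prodW w) = (N : ℝ) ^ 2 / 2 * (300 * (259 * Real.log 2 + 160 * Real.log 3))

/-- SIG: `Σ_{2,1}(3,510) ≥ 432820` and `Σ_{2,1}(a,4) = 6a+3`. -/
def SigStm : Prop := 432820 ≤ SigT 2 1 3 510 ∧ ∀ a : ℕ, 1 ≤ a → SigT 2 1 a 4 = 6 * a + 3

/-- TSQ: members of `T_{2,1}(a,n)` are `(4,6a+3)`-graphs. -/
def TsqStm : Prop :=
  ∀ a n : ℕ, 1 ≤ a → ∀ w : Fin n → Fin n → ℕ, IsT 2 1 a w → IsSQ 4 (6 * a + 3) w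

end Pool.Agent.R135.MG
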