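import Mathlib
import Pool.Agent.R135.MG.Stm

/-! MP_529160_co, part BLOW (helper813): the blow-up of the line graph of the complete graph on six
vertices. -/

namespace Pool.Agent.R135.MG.BlowN

open Pool.Agent.R135.MG

open Finset

section Blow

/-- the two end points of the fifteen edges of the complete graph on six vertices -/
def bed : Fin 15 → Fin 6 × Fin 6 :=
  ![(0, 1), (0, 2), (0, 3), (0, 4), (0, 5), (1, 2), (1, 3), (1, 4), (1, 5), (2, 3), (2, 4), (2, 5),
    (3, 4), (3, 5), (4, 5)]

/-- incidence vector of an edge -/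
def bv (e : Fin 15) (k : Fin 6) : ℕ := if k = (bed e).1 ∨ k = (bed e).2 then 1 else 0

/-- number of common end points -/
def bint (e e' : Fin 15) : ℕ := ∑ k, bv e k * bv e' k

theorem bv_sum : ∀ e, ∑ k, bv e k = 2 := by decide

theorem bint_le : ∀ e e', bint e e' ≤ 2 := by decide

theorem bint_symm : ∀ e e', bint e e' = bint e' e := by decide

theorem bint_self : ∀ e, bint e e = 2 := by decide

theorem bint_prod : ∀ e, ∏ e', (4 - bint e e') = 2 * 3 ^ 8 * 4 ^ 6 := by decide

/-- multiplicities between classes -/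
def bww (c c' : Fin 15 × Fin 20) : ℕ := 4 - bint c.1 c'.1 - (if c = c' then 1 else 0)

theorem bww_symm (c c' : Fin 15 × Fin 20) : bww c c' = bww c' c := by
  unfold bww
  rw [bint_symm]
  simp only [eq_comm]

theorem bww_self (c : Fin 15 × Fin 20) : bww c c = 1 := by
  unfold bww
  rw [bint_self]
  simp

theorem bww_pos (c c' : Fin 15 × Fin 20) : 1 ≤ bww c c' := by
  unfold bww
  have := bint_le c.1 c'.1
  split_ifs <;> omega

theorem bww_int (c c' : Fin 15 × Fin 20) :
    (bww c c' : ℤ) = 4 - (∑ k, (bv c.1 k : ℤ) * bv c'.1 k) - (if c = c' then 1 else 0) := by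
  have h := bint_le c.1 c'.1
  have h2 : (bint c.1 c'.1 : ℤ) = ∑ k, (bv c.1 k : ℤ) * bv c'.1 k := by
    unfold bint
    push_cast
    rfl
  rw [← h2]
  unfold bww
  split_ifs <;> omega

theorem sum_log_bww (c : Fin 15 × Fin 20) :
    ∑ c', Real.log (bww c c') = 259 * Real.log 2 + 160 * Real.log 3 := by
  have h1 : ∀ c', Real.log (bww c c') =
      Real.log ((4 - bint c.1 c'.1 : ℕ) : ℝ) - (if c = c' then Real.log 2 else 0) := by
    intro c'
    unfold bww
    split_ifs with h
    · subst h
      rw [bint_self]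
      norm_num
    · simp
  simp only [h1]
  rw [Finset.sum_sub_distrib, Finset.sum_ite_eq, if_pos (Finset.mem_univ _),
    Fintype.sum_prod_type]
  simp only [Finset.sum_const, Finset.card_univ, Fintype.card_fin, nsmul_eq_mul]
  rw [← Finset.mul_sum, ← Real.log_prod]
  · have h2 : (∏ i, ((4 - bint c.1 i : ℕ) : ℝ)) = 2 * 3 ^ 8 * 4 ^ 6 := by
      rw [← Nat.cast_prod, bint_prod]
      norm_num
    rw [h2, Real.log_mul (by norm_num) (by norm_num), Real.log_mul (by norm_num) (by norm_num),
      Real.log_pow, Real.log_pow]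
    have h3 : Real.log 4 = 2 * Real.log 2 := by
      rw [show (4 : ℝ) = 2 ^ 2 by norm_num, Real.log_pow]
      norm_num
    rw [h3]
    push_cast
    ring
  · intro i _
    have := bint_le c.1 i
    have h3 : (4 - bint c.1 i : ℕ) ≠ 0 := by omega
    exact_mod_cast h3

theorem sum_prs {n : ℕ} {R : Type*} [CommRing R] (F : Fin n → Fin n → R)
    (hF : ∀ i j, F i j = F j i) (X : Finset (Fin n)) :
    ∑ i ∈ X, ∑ j ∈ X, F i j = 2 * (∑ p ∈ prs X, F p.1 p.2) + ∑ i ∈ X, F i i := by
  have h1 : ∀ i ∈ X, ∀ j ∈ X, F i j = (if i < j then F i j else 0) + (if j < i then F i j else 0)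
      + (if i = j then F i j else 0) := by
    intro i _ j _
    rcases lt_trichotomy i j with h | h | h
    · rw [if_pos h, if_neg (not_lt.2 h.le), if_neg h.ne]
      ring
    · subst h
      simp
    · rw [if_neg (not_lt.2 h.le), if_pos h, if_neg h.ne']
      ring
  have h2 : ∑ i ∈ X, ∑ j ∈ X, F i j = ∑ i ∈ X, ∑ j ∈ X, ((if i < j then F i j else 0)
      + (if j < i then F i j else 0) + (if i = j then F i j else 0)) :=
    Finset.sum_congr rfl fun i hi => Finset.sum_congr rfl fun j hj => h1 i hi j hj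
  rw [h2]
  simp only [Finset.sum_add_distrib]
  have h3 : ∑ i ∈ X, ∑ j ∈ X, (if i < j then F i j else 0) = ∑ p ∈ prs X, F p.1 p.2 := by
    unfold prs
    rw [Finset.sum_filter, Finset.sum_product]
  have h4 : ∑ i ∈ X, ∑ j ∈ X, (if j < i then F i j else 0) =
      ∑ i ∈ X, ∑ j ∈ X, (if i < j then F i j else 0) := by
    rw [Finset.sum_comm]
    refine Finset.sum_congr rfl fun i _ => Finset.sum_congr rfl fun j _ => ?_
    rw [hF]
  have h5 : ∑ i ∈ X, ∑ j ∈ X, (if i = j then F i j else 0) = ∑ i ∈ X, F i i := by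
    refine Finset.sum_congr rfl fun i hi => ?_
    rw [Finset.sum_ite_eq, if_pos hi]
  rw [h4, h3, h5]
  ring

theorem blow_sq {n : ℕ} (cl : Fin n → Fin 15 × Fin 20) :
    IsSQ 510 432820 (fun i j => bww (cl i) (cl j)) := by
  intro X hX
  have hs := sum_prs (R := ℤ) (fun i j => (bww (cl i) (cl j) : ℤ))
    (fun i j => by rw [bww_symm]) X
  have he : (∑ p ∈ prs X, (bww (cl p.1) (cl p.2) : ℤ)) =
      ((eOn (fun i j => bww (cl i) (cl j)) X : ℕ) : ℤ) := by
    unfold eOn
    push_cast
    rfl
  rw [he] at hs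
  have hd : ∑ i ∈ X, (bww (cl i) (cl i) : ℤ) = 510 := by
    simp [bww_self, hX]
  rw [hd] at hs
  -- evaluate the full sum
  set S : Fin 6 → ℤ := fun k => ∑ i ∈ X, (bv (cl i).1 k : ℤ) with hS
  set m : Fin 15 × Fin 20 → ℤ := fun c => ∑ i ∈ X, (if cl i = c then 1 else 0) with hm
  have hfull : ∑ i ∈ X, ∑ j ∈ X, (bww (cl i) (cl j) : ℤ) =
      4 * 510 ^ 2 - ∑ k, S k ^ 2 - ∑ c, m c ^ 2 := by
    simp only [bww_int, Finset.sum_sub_distrib]
    have a1 : ∑ i ∈ X, ∑ j ∈ X, (4 : ℤ) = 4 * 510 ^ 2 := by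
      simp [hX]
    have a2 : ∑ i ∈ X, ∑ j ∈ X, ∑ k, (bv (cl i).1 k : ℤ) * bv (cl j).1 k = ∑ k, S k ^ 2 := by
      have : ∀ k, S k ^ 2 = ∑ i ∈ X, ∑ j ∈ X, (bv (cl i).1 k : ℤ) * bv (cl j).1 k := by
        intro k
        rw [sq, hS]
        simp only
        rw [Finset.sum_mul_sum]
      simp only [this]
      symm
      rw [Finset.sum_comm]
      refine Finset.sum_congr rfl fun i _ => ?_
      rw [Finset.sum_comm]
    have a3 : ∑ i ∈ X, ∑ j ∈ X, (if cl i = cl j then (1 : ℤ) else 0) = ∑ c, m c ^ 2 := by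
      have : ∀ c, m c ^ 2 = ∑ i ∈ X, ∑ j ∈ X,
          (if cl i = c then (1 : ℤ) else 0) * (if cl j = c then 1 else 0) := by
        intro c
        rw [sq, hm]
        simp only
        rw [Finset.sum_mul_sum]
      simp only [this]
      symm
      rw [Finset.sum_comm]
      refine Finset.sum_congr rfl fun i _ => ?_
      rw [Finset.sum_comm]
      refine Finset.sum_congr rfl fun j _ => ?_
      have h7 : ∀ c, (if cl i = c then (1 : ℤ) else 0) * (if cl j = c then 1 else 0) =
          if cl i = c then (if cl j = cl i then 1 else 0) else 0 := by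
        intro c
        by_cases h : cl i = c
        · subst h
          simp
        · simp [h]
      simp only [h7]
      rw [Finset.sum_ite_eq, if_pos (Finset.mem_univ _)]
      simp only [eq_comm]
    rw [a1, a2, a3]
  rw [hfull] at hs
  have hS1 : ∑ k, S k = 1020 := by
    rw [hS]
    simp only
    rw [Finset.sum_comm]
    have : ∀ i ∈ X, ∑ k, (bv (cl i).1 k : ℤ) = 2 := by
      intro i _
      exact_mod_cast bv_sum (cl i).1
    rw [Finset.sum_congr rfl this]
    simp [hX]
  have hm1 : ∑ c, m c = 510 := by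
    rw [hm]
    simp only
    rw [Finset.sum_comm]
    simp [hX]
  have c1 := sq_sum_le_card_mul_sum_sq (s := (Finset.univ : Finset (Fin 6))) (f := S)
  have c2 := sq_sum_le_card_mul_sum_sq (s := (Finset.univ : Finset (Fin 15 × Fin 20))) (f := m)
  rw [hS1] at c1
  rw [hm1] at c2
  simp only [Finset.card_univ, Fintype.card_fin, Fintype.card_prod] at c1 c2
  push_cast at c1 c2
  have : ((eOn (fun i j => bww (cl i) (cl j)) X : ℕ) : ℤ) ≤ 432820 := by
    omega
  exact_mod_cast this

theorem blow_log {n N : ℕ} (e : Fin n ≃ (Fin 15 × Fin 20) × Fin N) :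
    Real.log (prodW (fun i j => bww (e i).1 (e j).1)) =
      (N : ℝ) ^ 2 / 2 * (300 * (259 * Real.log 2 + 160 * Real.log 3)) := by
  have h1 : Real.log ((prodW (fun i j => bww (e i).1 (e j).1) : ℕ) : ℝ) =
      ∑ p ∈ prs (univ : Finset (Fin n)), Real.log (bww (e p.1).1 (e p.2).1) := by
    unfold prodW
    push_cast
    rw [Real.log_prod]
    intro p _
    have := bww_pos (e p.1).1 (e p.2).1
    have h : bww (e p.1).1 (e p.2).1 ≠ 0 := by omega
    exact_mod_cast h
  rw [h1]
  have hs := sum_prs (R := ℝ) (fun i j => Real.log (bww (e i).1 (e j).1))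
    (fun i j => by rw [bww_symm]) univ
  have hd : ∑ i : Fin n, Real.log (bww (e i).1 (e i).1) = 0 := by
    apply Finset.sum_eq_zero
    intro i _
    rw [bww_self]
    simp
  rw [hd, add_zero] at hs
  have hf : ∑ i : Fin n, ∑ j : Fin n, Real.log (bww (e i).1 (e j).1) =
      (N : ℝ) ^ 2 * (300 * (259 * Real.log 2 + 160 * Real.log 3)) := by
    have a1 : ∀ i : Fin n, ∑ j : Fin n, Real.log (bww (e i).1 (e j).1) =
        N * (259 * Real.log 2 + 160 * Real.log 3) := by
      intro i
      rw [Equiv.sum_comp e (fun z => Real.log (bww (e i).1 z.1)), Fintype.sum_prod_type]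
      simp only [Finset.sum_const, Finset.card_univ, Fintype.card_fin, nsmul_eq_mul]
      rw [← Finset.mul_sum, sum_log_bww]
    simp only [a1, Finset.sum_const, Finset.card_univ, Fintype.card_fin, nsmul_eq_mul]
    have hn : (n : ℝ) = 300 * N := by
      have := Fintype.card_congr e
      simp only [Fintype.card_fin, Fintype.card_prod] at this
      rw [this]
      push_cast
      ring
    rw [hn]
    ring
  rw [hf] at hs
  linarith

theorem blow : BlowStm := by
  intro N _
  let e : Fin (300 * N) ≃ (Fin 15 × Fin 20) × Fin N :=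
    (finCongr (show 300 * N = (15 * 20) * N by norm_num)).trans
      (finProdFinEquiv.symm.trans (Equiv.prodCongr finProdFinEquiv.symm (Equiv.refl _)))
  refine ⟨fun i j => bww (e i).1 (e j).1, ?_, ?_, ?_, ?_⟩
  · intro i j
    exact bww_symm _ _
  · exact blow_sq (fun i => (e i).1)
  · intro i j
    exact bww_pos _ _
  · exact blow_log e

end Blow

end Pool.Agent.R135.MG.BlowN
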