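import Pool.Agent.R135.MG.Stm

/-! Common lemmas for MP_529160_co: pairs versus ordered pairs, values on small sets. -/

namespace Pool.Agent.R135.MG

open Finset Filter

/-- sum over ordered pairs of distinct elements -/
def dd {n : ℕ} {M : Type} [AddCommMonoid M] (f : Fin n → Fin n → M) (X Y : Finset (Fin n)) : M :=
  ∑ i ∈ X, ∑ j ∈ Y, if i = j then 0 else f i j

theorem two_prs {n : ℕ} {M : Type} [AddCommMonoid M] (f : Fin n → Fin n → M)
    (hf : ∀ i j, f i j = f j i) (X : Finset (Fin n)) :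
    (∑ p ∈ prs X, f p.1 p.2) + (∑ p ∈ prs X, f p.1 p.2) = dd f X X := by
  have h1 : (∑ p ∈ prs X, f p.1 p.2) = ∑ i ∈ X, ∑ j ∈ X, if i < j then f i j else 0 := by
    unfold prs
    rw [Finset.sum_filter, Finset.sum_product]
  have h2 : (∑ p ∈ prs X, f p.1 p.2) = ∑ i ∈ X, ∑ j ∈ X, if j < i then f i j else 0 := by
    rw [h1, Finset.sum_comm]
    refine Finset.sum_congr rfl fun i _ => Finset.sum_congr rfl fun j _ => ?_
    rw [hf j i]
  conv_lhs => rw [h1]
  rw [← h1]
  conv_lhs =>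
    congr
    · rw [h1]
    · rw [h2]
  unfold dd
  rw [← Finset.sum_add_distrib]
  refine Finset.sum_congr rfl fun i _ => ?_
  rw [← Finset.sum_add_distrib]
  refine Finset.sum_congr rfl fun j _ => ?_
  rcases lt_trichotomy i j with h | h | h
  · simp [h, h.ne, not_lt_of_gt h]
  · simp [h]
  · simp [h, h.ne', not_lt_of_gt h]

theorem two_eOn {n : ℕ} (w : Fin n → Fin n → ℕ) (hw : Symm w) (X : Finset (Fin n)) :
    2 * eOn w X = dd w X X := by
  rw [two_mul]
  exact two_prs w hw X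

theorem log_prodW {n : ℕ} (w : Fin n → Fin n → ℕ) (hw : Symm w)
    (h1 : ∀ i j, i ≠ j → 1 ≤ w i j) :
    2 * Real.log (prodW w) = dd (fun i j => Real.log (w i j)) univ univ := by
  rw [two_mul, ← two_prs (fun i j => Real.log (w i j)) (fun i j => by rw [hw i j])]
  have : Real.log (prodW w) = ∑ p ∈ prs (univ : Finset (Fin n)), Real.log (w p.1 p.2) := by
    unfold prodW
    push_cast
    rw [Real.log_prod]
    intro p hp
    have hne : p.1 ≠ p.2 := (Finset.mem_filter.1 hp).2.ne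
    have := h1 p.1 p.2 hne
    exact_mod_cast (by omega : w p.1 p.2 ≠ 0)
  rw [this]

theorem prodW_pos {n : ℕ} (w : Fin n → Fin n → ℕ) (h1 : ∀ i j, i ≠ j → 1 ≤ w i j) :
    1 ≤ prodW w := by
  unfold prodW
  refine Nat.one_le_iff_ne_zero.2 (Finset.prod_ne_zero_iff.2 fun p hp => ?_)
  have hne : p.1 ≠ p.2 := (Finset.mem_filter.1 hp).2.ne
  have := h1 p.1 p.2 hne
  omega

theorem eOn4 {n : ℕ} (w : Fin n → Fin n → ℕ) (hw : Symm w) {x y z t : Fin n}
    (hxy : x ≠ y) (hxz : x ≠ z) (hxt : x ≠ t) (hyz : y ≠ z) (hyt : y ≠ t) (hzt : z ≠ t) :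
    eOn w {x, y, z, t} = w x y + w x z + w x t + w y z + w y t + w z t := by
  have h := two_eOn w hw {x, y, z, t}
  unfold dd at h
  have m1 : x ∉ ({y, z, t} : Finset (Fin n)) := by simp [hxy, hxz, hxt]
  have m2 : y ∉ ({z, t} : Finset (Fin n)) := by simp [hyz, hyt]
  have m3 : z ∉ ({t} : Finset (Fin n)) := by simp [hzt]
  simp only [Finset.sum_insert m1, Finset.sum_insert m2, Finset.sum_insert m3,
    Finset.sum_singleton, if_true, hxy, hxz, hxt, hyz, hyt, hzt, hxy.symm, hxz.symm, hxt.symm,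
    hyz.symm, hyt.symm, hzt.symm, if_false] at h
  rw [hw y x, hw z x, hw t x, hw z y, hw t y, hw t z] at h
  omega

end Pool.Agent.R135.MG
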