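import Pool.Agent.R135.MG.Com

/-! LOW: lower bound for `Π_{2,1}(a,n)`. -/

namespace Pool.Agent.R135.MG

open Finset Filter

theorem l1_pos {a : ℕ} (ha : 2 ≤ a) : 0 < l1 a := by
  unfold l1
  have h2 : (2 : ℝ) ≤ a := by exact_mod_cast ha
  have := Real.log_lt_log (by linarith : (0 : ℝ) < a) (by linarith : (a : ℝ) < a + 1)
  linarith

theorem l2_pos {a : ℕ} (ha : 2 ≤ a) : 0 < l2 a := by
  unfold l2
  have h2 : (2 : ℝ) ≤ a := by exact_mod_cast ha
  have := Real.log_lt_log (by linarith : (0 : ℝ) < (a : ℝ) - 1) (by linarith : (a : ℝ) - 1 < a + 1)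
  linarith

theorem isT_one_le {n a : ℕ} (ha : 2 ≤ a) {w : Fin n → Fin n → ℕ} (hT : IsT 2 1 a w) :
    ∀ i j, i ≠ j → 1 ≤ w i j := by
  obtain ⟨_, f, hf⟩ := hT
  intro i j hij
  rw [hf i j hij]
  split_ifs <;> omega

theorem isT_le {n a : ℕ} {w : Fin n → Fin n → ℕ} (hT : IsT 2 1 a w) :
    ∀ i j, i ≠ j → w i j ≤ a + 1 := by
  obtain ⟨_, f, hf⟩ := hT
  intro i j hij
  rw [hf i j hij]
  split_ifs <;> omega

theorem piT_ge {n a : ℕ} {w : Fin n → Fin n → ℕ} (hT : IsT 2 1 a w) :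
    prodW w ≤ PiT 2 1 a n := by
  unfold PiT
  refine le_csSup ⟨∏ _p ∈ prs (univ : Finset (Fin n)), (a + 1), ?_⟩ ⟨w, hT, rfl⟩
  rintro p ⟨v, hv, rfl⟩
  unfold prodW
  refine Finset.prod_le_prod' fun q hq => ?_
  exact isT_le hv _ _ (Finset.mem_filter.1 hq).2.ne

/-- the explicit member of `T_{2,1}(a,n)` with the first `k` vertices in part `0` -/
def wl (a k n : ℕ) (i j : Fin n) : ℕ :=
  if ((i : ℕ) < k ∧ ¬ (j : ℕ) < k) ∨ (¬ (i : ℕ) < k ∧ (j : ℕ) < k) then a + 1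
  else if (i : ℕ) < k then a - 1 else a

theorem wl_isT (a k n : ℕ) : IsT 2 1 a (wl a k n) := by
  refine ⟨?_, fun i => if (i : ℕ) < k then 0 else 1, ?_⟩
  · intro i j
    unfold wl
    by_cases h1 : (i : ℕ) < k <;> by_cases h2 : (j : ℕ) < k <;> simp [h1, h2]
  · intro i j _
    unfold wl
    by_cases h1 : (i : ℕ) < k <;> by_cases h2 : (j : ℕ) < k <;> simp [h1, h2]

theorem wl_log {a : ℕ} (k n : ℕ) (i j : Fin n) :
    Real.log ((a : ℝ) + 1) - l2 a * ((if (i : ℕ) < k then 1 else 0) * (if (j : ℕ) < k then 1 else 0))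
      - l1 a * ((if (i : ℕ) < k then 0 else 1) * (if (j : ℕ) < k then 0 else 1)) =
      Real.log ((wl a k n i j : ℕ) : ℝ) ∨ a = 0 := by
  rcases Nat.eq_zero_or_pos a with h0 | hpos
  · exact Or.inr h0
  · left
    unfold wl l1 l2
    have e1 : ((a - 1 : ℕ) : ℝ) = (a : ℝ) - 1 := by
      rw [Nat.cast_sub hpos]; simp
    by_cases h1 : (i : ℕ) < k <;> by_cases h2 : (j : ℕ) < k <;> simp [h1, h2, e1]

theorem sum_ind (k n : ℕ) (hk : k ≤ n) :
    (∑ i : Fin n, (if (i : ℕ) < k then (1 : ℝ) else 0)) = k := by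
  rw [Fin.sum_univ_eq_sum_range (fun i => if i < k then (1 : ℝ) else 0) n]
  rw [← Finset.sum_filter]
  have : (Finset.range n).filter (fun i => i < k) = Finset.range k := by
    ext i; simp; omega
  rw [this]; simp

theorem sum_ind' (k n : ℕ) (hk : k ≤ n) :
    (∑ i : Fin n, (if (i : ℕ) < k then (0 : ℝ) else 1)) = n - k := by
  have h : ∀ i : Fin n, (if (i : ℕ) < k then (0 : ℝ) else 1) = 1 - (if (i : ℕ) < k then (1 : ℝ) else 0) := by
    intro i; split_ifs <;> norm_num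
  simp_rw [h]
  rw [Finset.sum_sub_distrib, sum_ind k n hk]
  simp

theorem wl_prod {a : ℕ} (ha : 2 ≤ a) (k n : ℕ) (hk : k ≤ n) :
    (n : ℝ) * (n - 1) * Real.log ((a : ℝ) + 1) - l2 a * (k : ℝ) ^ 2 - l1 a * ((n : ℝ) - k) ^ 2 ≤
      2 * Real.log (prodW (wl a k n)) := by
  have hT := wl_isT a k n
  rw [log_prodW _ hT.1 (isT_one_le ha hT)]
  unfold dd
  have key : ∀ i j : Fin n,
      (if i = j then 0 else Real.log ((a : ℝ) + 1)) - l2 a * ((if (i : ℕ) < k then 1 else 0) *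
        (if (j : ℕ) < k then 1 else 0))
        - l1 a * ((if (i : ℕ) < k then 0 else 1) * (if (j : ℕ) < k then 0 else 1)) ≤
      if i = j then 0 else Real.log ((wl a k n i j : ℕ) : ℝ) := by
    intro i j
    by_cases hij : i = j
    · simp only [hij, if_true]
      have p1 := l1_pos ha
      have p2 := l2_pos ha
      split_ifs <;> nlinarith
    · simp only [hij, if_false]
      rcases wl_log (a := a) k n i j with h | h
      · exact h.le
      · omega
  have hsum := Finset.sum_le_sum fun i (_ : i ∈ (univ : Finset (Fin n))) =>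
    Finset.sum_le_sum fun j (_ : j ∈ (univ : Finset (Fin n))) => key i j
  refine le_trans (le_of_eq ?_) hsum
  simp only [Finset.sum_sub_distrib, ← Finset.mul_sum, ← Finset.sum_mul, sum_ind k n hk,
    sum_ind' k n hk]
  have hd : (∑ i : Fin n, ∑ j : Fin n, (if i = j then 0 else Real.log ((a : ℝ) + 1))) =
      (n : ℝ) * (n - 1) * Real.log ((a : ℝ) + 1) := by
    have : ∀ i j : Fin n, (if i = j then 0 else Real.log ((a : ℝ) + 1)) =
        Real.log ((a : ℝ) + 1) - (if i = j then Real.log ((a : ℝ) + 1) else 0) := by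
      intro i j; split_ifs <;> ring
    simp_rw [this, Finset.sum_sub_distrib]
    simp
    ring
  rw [hd]
  ring

theorem low : LowStm := by
  intro a ha
  have p1 := l1_pos ha
  have p2 := l2_pos ha
  have h2 : (2 : ℝ) ≤ a := by exact_mod_cast ha
  have hM : 0 < Real.log ((a : ℝ) + 1) := Real.log_pos (by linarith)
  refine ⟨(Real.log ((a : ℝ) + 1) + 3 * l1 a) / 2, fun n => ?_⟩
  have hp0 : 0 ≤ l1 a / (l1 a + l2 a) := by positivity
  have hp1 : l1 a / (l1 a + l2 a) ≤ 1 := by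
    rw [div_le_one (by linarith)]; linarith
  have hx0 : 0 ≤ l1 a / (l1 a + l2 a) * n := by positivity
  have hkn : ⌊l1 a / (l1 a + l2 a) * (n : ℝ)⌋₊ ≤ n := by
    refine Nat.floor_le_of_le ?_
    calc l1 a / (l1 a + l2 a) * (n : ℝ) ≤ 1 * n := by gcongr
      _ = n := one_mul _
  set k := ⌊l1 a / (l1 a + l2 a) * (n : ℝ)⌋₊ with hk
  have hk1 : (k : ℝ) ≤ l1 a / (l1 a + l2 a) * n := Nat.floor_le hx0
  have hk2 : l1 a / (l1 a + l2 a) * n < k + 1 := Nat.lt_floor_add_one _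
  have hT := wl_isT a k n
  have hge := piT_ge hT
  have hpos := prodW_pos _ (isT_one_le ha hT)
  refine ⟨?_, le_trans hpos hge⟩
  have hlog : Real.log (prodW (wl a k n)) ≤ Real.log (PiT 2 1 a n) := by
    refine Real.log_le_log (by exact_mod_cast hpos) (by exact_mod_cast hge)
  refine le_trans ?_ hlog
  have hmain := wl_prod ha k n hkn
  rcases Nat.eq_zero_or_pos n with h0 | hn
  · subst h0
    have : prodW (wl a k 0) = 1 := by
      unfold prodW
      refine Finset.prod_eq_one ?_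
      intro p _
      exact p.1.elim0
    rw [this]
    simp
  have hn1 : (1 : ℝ) ≤ n := by exact_mod_cast hn
  -- the two squares
  have hs1 : l2 a * (k : ℝ) ^ 2 ≤ l2 a * (l1 a / (l1 a + l2 a) * n) ^ 2 := by gcongr
  have hnk0 : (0 : ℝ) ≤ (n : ℝ) - k := by
    have : (k : ℝ) ≤ n := by exact_mod_cast hkn
    linarith
  have hnk : (n : ℝ) - k ≤ (l2 a / (l1 a + l2 a)) * n + 1 := by
    have : l2 a / (l1 a + l2 a) = 1 - l1 a / (l1 a + l2 a) := by
      field_simp; ring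
    rw [this]
    nlinarith
  have hs2 : l1 a * ((n : ℝ) - k) ^ 2 ≤ l1 a * ((l2 a / (l1 a + l2 a)) * n + 1) ^ 2 := by gcongr
  have hq1 : l2 a / (l1 a + l2 a) ≤ 1 := by
    rw [div_le_one (by linarith)]; linarith
  have hs3 : l1 a * ((l2 a / (l1 a + l2 a)) * n + 1) ^ 2 ≤
      l1 a * ((l2 a / (l1 a + l2 a)) ^ 2 * n ^ 2 + 3 * n) := by
    have : ((l2 a / (l1 a + l2 a)) * n + 1) ^ 2 ≤ (l2 a / (l1 a + l2 a)) ^ 2 * (n : ℝ) ^ 2 + 3 * n := by
      have : (l2 a / (l1 a + l2 a)) * n ≤ n := by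
        calc (l2 a / (l1 a + l2 a)) * (n : ℝ) ≤ 1 * n := by gcongr
          _ = n := one_mul _
      nlinarith
    gcongr
  have hid : l2 a * (l1 a / (l1 a + l2 a) * n) ^ 2 + l1 a * ((l2 a / (l1 a + l2 a)) ^ 2 * n ^ 2) =
      l1 a * l2 a / (l1 a + l2 a) * (n : ℝ) ^ 2 := by
    have : l1 a + l2 a ≠ 0 := by linarith
    field_simp
  have hHH : HH a = Real.log ((a : ℝ) + 1) - l1 a * l2 a / (l1 a + l2 a) := rfl
  rw [hHH]
  nlinarith

end Pool.Agent.R135.MG
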