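import Pool.Agent.R135.MG.Stm

/-! The weighted pattern lemma (piece PAT of MP_529160_co). -/

namespace Pool.Agent.R135.MG.PatN

open Pool.Agent.R135.MG

open Finset

section
variable {V : Type} [Fintype V] [DecidableEq V] (Z W : V → V → Prop) [DecidableRel Z]
  [DecidableRel W] (ρ : ℝ)

noncomputable def patQ (x : V → ℝ) : ℝ := ∑ i, ∑ j, cf Z W ρ i j * x i * x j

noncomputable def patG (x : V → ℝ) (i : V) : ℝ := ∑ j, cf Z W ρ i j * x j

omit [Fintype V] in
theorem cf_symm (hZ : ∀ i j, Z i j → Z j i) (hW : ∀ i j, W i j → W j i) (i j : V) :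
    cf Z W ρ i j = cf Z W ρ j i := by
  have h1 : Z i j ↔ Z j i := ⟨hZ i j, hZ j i⟩
  have h2 : W i j ↔ W j i := ⟨hW i j, hW j i⟩
  unfold cf
  by_cases h : i = j
  · subst h; rfl
  · have h' : ¬ j = i := fun e => h e.symm
    simp [h, h', h1, h2]

theorem patQ_eq (x : V → ℝ) : patQ Z W ρ x = ∑ i, x i * patG Z W ρ x i := by
  unfold patQ patG
  refine Finset.sum_congr rfl fun i _ => ?_
  rw [Finset.mul_sum]
  exact Finset.sum_congr rfl fun j _ => by ring

theorem patQ_add (hs : ∀ i j, cf Z W ρ i j = cf Z W ρ j i) (x d : V → ℝ) (t : ℝ) :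
    patQ Z W ρ (fun i => x i + t * d i) =
      patQ Z W ρ x + 2 * t * ∑ i, d i * patG Z W ρ x i + t ^ 2 * patQ Z W ρ d := by
  have h1 : patQ Z W ρ (fun i => x i + t * d i) =
      patQ Z W ρ x + t * (∑ i, ∑ j, cf Z W ρ i j * x i * d j)
        + t * (∑ i, ∑ j, cf Z W ρ i j * d i * x j) + t ^ 2 * patQ Z W ρ d := by
    unfold patQ
    simp only [Finset.mul_sum]
    simp only [← Finset.sum_add_distrib]
    refine Finset.sum_congr rfl fun i _ => Finset.sum_congr rfl fun j _ => ?_
    ring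
  have h2 : ∑ i, ∑ j, cf Z W ρ i j * x i * d j = ∑ i, d i * patG Z W ρ x i := by
    rw [Finset.sum_comm]
    refine Finset.sum_congr rfl fun j _ => ?_
    unfold patG
    rw [Finset.mul_sum]
    refine Finset.sum_congr rfl fun i _ => ?_
    rw [hs i j]; ring
  have h3 : ∑ i, ∑ j, cf Z W ρ i j * d i * x j = ∑ i, d i * patG Z W ρ x i := by
    refine Finset.sum_congr rfl fun j _ => ?_
    unfold patG
    rw [Finset.mul_sum]
    refine Finset.sum_congr rfl fun i _ => ?_
    ring
  rw [h1, h2, h3]; ring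

noncomputable def dd (i j : V) : V → ℝ := fun k => (if k = i then 1 else 0) - (if k = j then 1 else 0)

theorem sum_dd (i j : V) (f : V → ℝ) : ∑ k, dd i j k * f k = f i - f j := by
  simp [dd, sub_mul, Finset.sum_sub_distrib]

theorem sum_dd' (i j : V) (f : V → ℝ) : ∑ k, f k * dd i j k = f i - f j := by
  simp [dd, mul_sub, Finset.sum_sub_distrib]

theorem patQ_dd (hs : ∀ i j, cf Z W ρ i j = cf Z W ρ j i) (i j : V) :
    patQ Z W ρ (dd i j) = cf Z W ρ i i + cf Z W ρ j j - 2 * cf Z W ρ i j := by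
  rw [patQ_eq, sum_dd]
  unfold patG
  rw [sum_dd' i j (fun k => cf Z W ρ i k), sum_dd' i j (fun k => cf Z W ρ j k), hs j i]
  ring

theorem patQ_continuous : Continuous (patQ Z W ρ) := by
  unfold patQ
  fun_prop

end

theorem pat_aux {V : Type} [Fintype V] [DecidableEq V] (Z W : V → V → Prop) [DecidableRel Z]
    [DecidableRel W] (ρ : ℝ) (h2 : 2 ≤ ρ) (h4 : ρ ≤ 4)
    (hZ : ∀ i j, Z i j → Z j i) (hW : ∀ i j, W i j → W j i) (hir : ∀ i, ¬ Z i i)
    (htri : ∀ i j k, Z i j → Z j k → ¬ Z i k)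
    (hC4 : ∀ a b c d, a ≠ c → b ≠ d → Z a b → Z b c → Z c d → Z d a → W a c ∨ W b d)
    (S : Finset V) : ∀ x : V → ℝ, (∀ i, 0 ≤ x i) → (∀ i, i ∉ S → x i = 0) → ∑ i, x i = 1 →
      ρ / (1 + ρ) ≤ patQ Z W ρ x := by
  have hs := cf_symm Z W ρ hZ hW
  induction S using Finset.strongInduction with
  | H S IH =>
  by_contra hcon
  push Not at hcon
  obtain ⟨x0, hx0, hx0S, hx01, hx0Q⟩ := hcon
  -- minimiser
  let K : Set (V → ℝ) := {x | x ∈ stdSimplex ℝ V ∧ ∀ i, i ∉ S → x i = 0}
  have hKc : IsCompact K := by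
    have : K = stdSimplex ℝ V ∩ {x | ∀ i, i ∉ S → x i = 0} := rfl
    rw [this]
    refine (isCompact_stdSimplex ℝ V).inter_right ?_
    have : {x : V → ℝ | ∀ i, i ∉ S → x i = 0} = ⋂ i, ⋂ (_ : i ∉ S), {x | x i = 0} := by
      ext x; simp
    rw [this]
    exact isClosed_iInter fun i => isClosed_iInter fun _ =>
      isClosed_eq (continuous_apply i) continuous_const
  obtain ⟨x, hxK, hmin⟩ := hKc.exists_isMinOn ⟨x0, ⟨hx0, hx01⟩, hx0S⟩
    (patQ_continuous Z W ρ).continuousOn
  have hxn : ∀ i, 0 ≤ x i := hxK.1.1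
  have hx1 : ∑ i, x i = 1 := hxK.1.2
  have hxS : ∀ i, i ∉ S → x i = 0 := hxK.2
  have hmin' : ∀ y ∈ K, patQ Z W ρ x ≤ patQ Z W ρ y := fun y hy => hmin hy
  have hxQ : patQ Z W ρ x < ρ / (1 + ρ) := lt_of_le_of_lt (hmin' x0 ⟨⟨hx0, hx01⟩, hx0S⟩) hx0Q
  set M := patQ Z W ρ x with hM
  -- positivity
  have hpos : ∀ i ∈ S, 0 < x i := by
    intro i hi
    rcases (hxn i).lt_or_eq with h | h
    · exact h
    exfalso
    have := IH (S.erase i) (Finset.erase_ssubset hi) x hxn (by
      intro j hj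
      by_cases hji : j = i
      · rw [hji]; exact h.symm
      · exact hxS j (fun hj' => hj (Finset.mem_erase.2 ⟨hji, hj'⟩))) hx1
    rw [← hM] at this
    linarith
  -- moving mass
  have hcii : ∀ i, cf Z W ρ i i = ρ := fun i => by simp [cf]
  have hQy : ∀ i j t, patQ Z W ρ (fun k => x k + t * dd i j k) =
      M + 2 * t * (patG Z W ρ x i - patG Z W ρ x j) + t ^ 2 * (2 * ρ - 2 * cf Z W ρ i j) := by
    intro i j t
    rw [patQ_add Z W ρ hs, sum_dd, patQ_dd Z W ρ hs, hcii, hcii]; ring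
  have hyn : ∀ i ∈ S, ∀ j ∈ S, i ≠ j → ∀ t, -x i ≤ t → t ≤ x j →
      (fun k => x k + t * dd i j k) ∈ K := by
    intro i hi j hj hij t ht1 ht2
    refine ⟨⟨?_, ?_⟩, ?_⟩
    · intro k
      by_cases hki : k = i
      · subst hki
        simp [dd, hij]; linarith
      · by_cases hkj : k = j
        · subst hkj
          simp [dd, hki]; linarith
        · simp [dd, hki, hkj]; exact hxn k
    · rw [Finset.sum_add_distrib, ← Finset.mul_sum, hx1]
      have := sum_dd i j (fun _ => (1 : ℝ))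
      simp only [mul_one] at this
      rw [this]; simp
    · intro k hk
      have hki : k ≠ i := fun e => hk (e ▸ hi)
      have hkj : k ≠ j := fun e => hk (e ▸ hj)
      simp [dd, hki, hkj]; exact hxS k hk
  have hcle : ∀ i j, cf Z W ρ i j ≤ ρ := by
    intro i j; unfold cf; split_ifs <;> linarith
  have hgle : ∀ i ∈ S, ∀ j ∈ S, i ≠ j → patG Z W ρ x i ≤ patG Z W ρ x j := by
    intro i hi j hj hij
    by_contra hD
    push Not at hD
    set D := patG Z W ρ x i - patG Z W ρ x j with hDdef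
    have hDpos : 0 < D := by rw [hDdef]; linarith
    set κ := 2 * ρ - 2 * cf Z W ρ i j with hκ
    have hκ0 : 0 ≤ κ := by have := hcle i j; rw [hκ]; linarith
    set s := min (x i) (D / (κ + 1)) with hsdef
    have hs0 : 0 < s := lt_min (hpos i hi) (by positivity)
    have hs1 : s ≤ x i := min_le_left _ _
    have hs2 : s ≤ D / (κ + 1) := min_le_right _ _
    have h := hmin' _ (hyn i hi j hj hij (-s) (by linarith) (by linarith [hpos j hj]))
    rw [hQy i j (-s)] at h
    have h' : 0 ≤ s * (s * κ - 2 * D) := by nlinarith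
    have h'' : 0 ≤ s * κ - 2 * D := by
      by_contra hneg
      push Not at hneg
      have := mul_neg_of_pos_of_neg hs0 hneg
      linarith
    have h3 : s * (κ + 1) ≤ D := by
      rw [le_div_iff₀ (by positivity)] at hs2; exact hs2
    nlinarith
  have hgeq : ∀ i ∈ S, ∀ j ∈ S, patG Z W ρ x i = patG Z W ρ x j := by
    intro i hi j hj
    by_cases hij : i = j
    · rw [hij]
    · exact le_antisymm (hgle i hi j hj hij) (hgle j hj i hi (Ne.symm hij))
  have hcne : ∀ i ∈ S, ∀ j ∈ S, i ≠ j → cf Z W ρ i j ≠ ρ := by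
    intro i hi j hj hij hc
    have hy := hyn i hi j hj hij (-x i) le_rfl (by linarith [hpos i hi, hpos j hj])
    have hQ := hQy i j (-x i)
    rw [hgeq i hi j hj, hc] at hQ
    have := IH (S.erase i) (Finset.erase_ssubset hi) _ hy.1.1 (by
      intro k hk
      by_cases hki : k = i
      · subst hki
        simp [dd, hij]
      · exact hy.2 k (fun hk' => hk (Finset.mem_erase.2 ⟨hki, hk'⟩))) hy.1.2
    rw [hQ] at this
    linarith
  have hnW : ∀ i ∈ S, ∀ j ∈ S, i ≠ j → ¬ Z i j → ¬ W i j := by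
    intro i hi j hj hij hz hw
    exact hcne i hi j hj hij (by simp [cf, hij, hz, hw])
  -- S nonempty
  have hSne : S.Nonempty := by
    by_contra hemp
    rw [Finset.not_nonempty_iff_eq_empty] at hemp
    have : ∑ i, x i = 0 := Finset.sum_eq_zero fun i _ => hxS i (by simp [hemp])
    linarith
  have hsumS : ∀ f : V → ℝ, ∑ i, x i * f i = ∑ i ∈ S, x i * f i := by
    intro f
    refine (Finset.sum_subset (Finset.subset_univ S) ?_).symm
    intro i _ hi
    rw [hxS i hi]; ring
  have hsumS1 : ∑ i ∈ S, x i = 1 := by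
    have := hsumS (fun _ => 1)
    simp only [mul_one] at this
    rw [← this, hx1]
  have hgM : ∀ i ∈ S, patG Z W ρ x i = M := by
    intro i hi
    have h : M = ∑ j ∈ S, x j * patG Z W ρ x j := by rw [hM, patQ_eq, hsumS]
    rw [h, Finset.sum_congr rfl (fun j hj => by rw [hgeq j hj i hi]), ← Finset.sum_mul, hsumS1,
      one_mul]
  let N : V → Finset V := fun u => S.filter (fun w => Z u w)
  set k := 1 - M with hk
  have hkρ : 1 < k * (1 + ρ) := by
    have : M * (1 + ρ) < ρ := by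
      rwa [lt_div_iff₀ (by linarith)] at hxQ
    rw [hk]; nlinarith
  have hkpos : 0 < k := by
    by_contra hneg
    push Not at hneg
    nlinarith
  have hy : ∀ i ∈ S, ∑ j ∈ N i, x j = k + (ρ - 1) * x i := by
    intro i hi
    have h1 : patG Z W ρ x i = ∑ j ∈ S, cf Z W ρ i j * x j := by
      unfold patG
      refine (Finset.sum_subset (Finset.subset_univ S) ?_).symm
      intro j _ hj
      rw [hxS j hj]; ring
    have h3 : ∑ j ∈ S, cf Z W ρ i j * x j =
        ∑ j ∈ S, (x j - (if Z i j then x j else 0) + (if j = i then (ρ - 1) * x j else 0)) := by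
      refine Finset.sum_congr rfl fun j hj => ?_
      by_cases hji : j = i
      · subst hji
        simp [cf, hir]; ring
      · have hij : i ≠ j := fun e => hji e.symm
        by_cases hz : Z i j
        · simp [cf, hij, hz, hji]
        · have hw := hnW i hi j hj hij hz
          simp [cf, hij, hz, hji, hw]
    rw [hgM i hi] at h1
    rw [h3, Finset.sum_add_distrib, Finset.sum_sub_distrib, hsumS1, ← Finset.sum_filter,
      Finset.sum_ite_eq' S i (fun j => (ρ - 1) * x j), if_pos hi] at h1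
    show ∑ j ∈ S.filter (fun w => Z i w), x j = _
    rw [hk]; linarith
  -- minimal vertex
  obtain ⟨v, hvS, hvmin⟩ := Finset.exists_min_image S x hSne
  set B := N v with hB
  have hBS : ∀ u ∈ B, u ∈ S ∧ Z v u := by
    intro u hu
    exact Finset.mem_filter.1 hu
  have hyv : ∑ u ∈ B, x u = k + (ρ - 1) * x v := hy v hvS
  have hxv : 0 < x v := hpos v hvS
  have hvB : v ∉ B := fun h => hir v (hBS v h).2
  have hmemN : ∀ u w, w ∈ N u ↔ w ∈ S ∧ Z u w := fun u w => Finset.mem_filter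
  have hdis : (B : Set V).PairwiseDisjoint (fun u => (N u).erase v) := by
    intro u hu u' hu' huu'
    rw [Function.onFun, Finset.disjoint_left]
    intro w hw hw'
    obtain ⟨hwv, hw⟩ := Finset.mem_erase.1 hw
    obtain ⟨_, hw'⟩ := Finset.mem_erase.1 hw'
    obtain ⟨hwS, huw⟩ := (hmemN u w).1 hw
    obtain ⟨_, hu'w⟩ := (hmemN u' w).1 hw'
    obtain ⟨huS, hvu⟩ := hBS u hu
    obtain ⟨hu'S, hvu'⟩ := hBS u' hu'
    rcases hC4 v u w u' (Ne.symm hwv) huu' hvu huw (hZ _ _ hu'w) (hZ _ _ hvu') with h | h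
    · exact hnW v hvS w hwS (Ne.symm hwv) (htri v u w hvu huw) h
    · exact hnW u huS u' hu'S huu' (htri u v u' (hZ _ _ hvu) hvu') h
  have hdisB : Disjoint B (B.biUnion (fun u => (N u).erase v)) := by
    rw [Finset.disjoint_left]
    intro w hw hw'
    obtain ⟨u, hu, hwu⟩ := Finset.mem_biUnion.1 hw'
    obtain ⟨_, hwu⟩ := Finset.mem_erase.1 hwu
    exact htri v u w (hBS u hu).2 ((hmemN u w).1 hwu).2 (hBS w hw).2
  have hdisv : v ∉ B ∪ B.biUnion (fun u => (N u).erase v) := by
    intro h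
    rcases Finset.mem_union.1 h with h | h
    · exact hvB h
    · obtain ⟨u, _, hwu⟩ := Finset.mem_biUnion.1 h
      exact (Finset.mem_erase.1 hwu).1 rfl
  have htot : x v + (∑ u ∈ B, x u + ∑ u ∈ B, ∑ w ∈ (N u).erase v, x w) ≤ 1 := by
    rw [← Finset.sum_biUnion hdis, ← Finset.sum_union hdisB, ← Finset.sum_insert hdisv, ← hx1]
    exact Finset.sum_le_sum_of_subset_of_nonneg (Finset.subset_univ _) fun i _ _ => hxn i
  have hin : ∑ u ∈ B, ∑ w ∈ (N u).erase v, x w = ∑ u ∈ B, (k + (ρ - 1) * x u - x v) := by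
    refine Finset.sum_congr rfl fun u hu => ?_
    obtain ⟨huS, hvu⟩ := hBS u hu
    have hvN : v ∈ N u := (hmemN u v).2 ⟨hvS, hZ _ _ hvu⟩
    have := Finset.add_sum_erase (N u) x hvN
    rw [hy u huS] at this
    linarith
  have hin2 : ∑ u ∈ B, (k + (ρ - 1) * x u - x v) =
      (B.card : ℝ) * (k - x v) + (ρ - 1) * (k + (ρ - 1) * x v) := by
    rw [Finset.sum_sub_distrib, Finset.sum_add_distrib, ← Finset.mul_sum, hyv]
    simp only [Finset.sum_const, nsmul_eq_mul]
    ring
  rw [hin, hin2, hyv] at htot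
  have hb1 : 1 ≤ B.card := by
    rw [Nat.one_le_iff_ne_zero]
    intro h0
    rw [Finset.card_eq_zero] at h0
    rw [h0, Finset.sum_empty] at hyv
    nlinarith
  have hb1' : (1 : ℝ) ≤ (B.card : ℝ) := by exact_mod_cast hb1
  have hkey : ((B.card : ℝ) - 1) * (k - x v) + ρ * (ρ - 1) * x v < 0 := by nlinarith
  by_cases hle : x v ≤ k
  · have h1 : 0 ≤ ((B.card : ℝ) - 1) * (k - x v) := mul_nonneg (by linarith) (by linarith)
    have h3 : 0 ≤ ρ * (ρ - 1) * x v := by
      have : 0 ≤ ρ * (ρ - 1) := mul_nonneg (by linarith) (by linarith)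
      exact mul_nonneg this hxv.le
    linarith
  · push Not at hle
    have hk5 : 1 / 5 < x v := by
      have : 1 / 5 < k := by
        by_contra hneg
        push Not at hneg
        nlinarith
      linarith
    have hb3 : (B.card : ℝ) < 4 := by
      have h1 : (B.card : ℝ) * x v ≤ ∑ u ∈ B, x u := by
        have := Finset.card_nsmul_le_sum B x (x v) (fun u hu => hvmin u (hBS u hu).1)
        rwa [nsmul_eq_mul] at this
      have h3 : x v + ∑ u ∈ B, x u ≤ 1 := by
        rw [← Finset.sum_insert hvB, ← hx1]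
        exact Finset.sum_le_sum_of_subset_of_nonneg (Finset.subset_univ _) fun i _ _ => hxn i
      nlinarith
    have hb3' : B.card < 4 := by exact_mod_cast hb3
    have hb3'' : (B.card : ℝ) ≤ 3 := by exact_mod_cast Nat.lt_succ_iff.1 hb3'
    have h5 : ((B.card : ℝ) - 1) * (x v - k) ≤ 2 * x v := by nlinarith
    have h6 : 2 * x v ≤ ρ * (ρ - 1) * x v := by
      have : 2 ≤ ρ * (ρ - 1) := by nlinarith
      exact mul_le_mul_of_nonneg_right this hxv.le
    nlinarith

/-- PAT: the weighted pattern lemma. -/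
theorem pat : PatStm := by
  intro V _ _ Z W _ _ ρ h2 h4 hZ hW hir htri hC4 x hx hx1
  exact pat_aux Z W ρ h2 h4 hZ hW hir htri hC4 Finset.univ x hx (fun i hi => absurd (Finset.mem_univ i) hi) hx1

end Pool.Agent.R135.MG.PatN
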