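import Pool.Agent.R135.MG.Stm

/-! MG-SIG / MG-TSQ for MP_529160_co. -/

namespace Pool.Agent.R135.MG.SigN

open Pool.Agent.R135.MG

open Finset Filter

lemma eOn_four {n : ℕ} (w : Fin n → Fin n → ℕ) (X : Finset (Fin n)) (h : X.card = 4) :
    ∃ x : Fin 4 → Fin n, Function.Injective x ∧
      eOn w X = w (x 0) (x 1) + w (x 0) (x 2) + w (x 0) (x 3) + w (x 1) (x 2) + w (x 1) (x 3) +
        w (x 2) (x 3) := by
  classical
  let x := X.orderEmbOfFin h
  refine ⟨x, x.injective, ?_⟩
  have hprs : prs X = (prs (univ : Finset (Fin 4))).image (fun p => (x p.1, x p.2)) := by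
    ext p
    simp only [prs, mem_filter, mem_product, mem_image, mem_univ, true_and, Prod.exists]
    constructor
    · rintro ⟨⟨h1, h2⟩, h3⟩
      have hr : Set.range x = (X : Set (Fin n)) := X.range_orderEmbOfFin h
      have h1' : p.1 ∈ Set.range x := by rw [hr]; exact h1
      have h2' : p.2 ∈ Set.range x := by rw [hr]; exact h2
      obtain ⟨i, hi⟩ := h1'
      obtain ⟨j, hj⟩ := h2'
      refine ⟨i, j, ?_, by rw [hi, hj]⟩
      rw [← hi, ← hj] at h3
      exact x.lt_iff_lt.1 h3
    · rintro ⟨i, j, hij, rfl⟩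
      exact ⟨⟨X.orderEmbOfFin_mem h i, X.orderEmbOfFin_mem h j⟩, x.lt_iff_lt.2 hij⟩
  have hinj : Set.InjOn (fun p : Fin 4 × Fin 4 => (x p.1, x p.2))
      (prs (univ : Finset (Fin 4)) : Set (Fin 4 × Fin 4)) := by
    intro p _ q _ hpq
    have := Prod.mk.inj hpq
    exact Prod.ext (x.injective this.1) (x.injective this.2)
  have hfour : prs (univ : Finset (Fin 4)) =
      {(0, 1), (0, 2), (0, 3), (1, 2), (1, 3), (2, 3)} := by
    decide
  unfold eOn
  rw [hprs, Finset.sum_image hinj, hfour]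
  rw [Finset.sum_insert (by decide), Finset.sum_insert (by decide), Finset.sum_insert (by decide),
    Finset.sum_insert (by decide), Finset.sum_insert (by decide), Finset.sum_singleton]
  ring

theorem tsq : TsqStm := by
  intro a n ha w hw X hX
  obtain ⟨-, f, hf⟩ := hw
  obtain ⟨x, hx, he⟩ := eOn_four w X hX
  have hne : ∀ i j : Fin 4, i ≠ j → x i ≠ x j := fun i j hij h => hij (hx h)
  rw [he, hf _ _ (hne 0 1 (by decide)), hf _ _ (hne 0 2 (by decide)), hf _ _ (hne 0 3 (by decide)),
    hf _ _ (hne 1 2 (by decide)), hf _ _ (hne 1 3 (by decide)), hf _ _ (hne 2 3 (by decide))]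
  generalize f (x 0) = p
  generalize f (x 1) = q
  generalize f (x 2) = r
  generalize f (x 3) = s
  fin_cases p <;> fin_cases q <;> fin_cases r <;> fin_cases s <;> simp <;> omega

/-- the standard member of `T_{2,1}(a,n)` with part `0` of size `k` -/
def stdW (a k : ℕ) {n : ℕ} (i j : Fin n) : ℕ :=
  if ((i : ℕ) < k ∧ (j : ℕ) < k) then a - 1 else
    if ((i : ℕ) < k ∨ (j : ℕ) < k) then a + 1 else a

lemma stdW_isT (a k n : ℕ) : IsT 2 1 a (stdW a k (n := n)) := by
  refine ⟨?_, fun i => if (i : ℕ) < k then 0 else 1, ?_⟩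
  · intro i j
    unfold stdW
    by_cases h1 : (i : ℕ) < k <;> by_cases h2 : (j : ℕ) < k <;> simp [h1, h2]
  · intro i j _
    unfold stdW
    by_cases h1 : (i : ℕ) < k <;> by_cases h2 : (j : ℕ) < k <;> simp [h1, h2]

lemma bdd_sig (a n : ℕ) : BddAbove {e | ∃ w : Fin n → Fin n → ℕ, IsT 2 1 a w ∧ e = eOn w univ} := by
  refine ⟨(prs (univ : Finset (Fin n))).card * (a + 1), ?_⟩
  rintro e ⟨w, ⟨-, f, hf⟩, rfl⟩
  unfold eOn
  rw [← smul_eq_mul]
  refine Finset.sum_le_card_nsmul _ _ _ ?_
  intro p hp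
  have hlt : p.1 < p.2 := (mem_filter.1 hp).2
  rw [hf _ _ (ne_of_lt hlt)]
  split_ifs <;> omega

lemma eOn_std (a k n : ℕ) (hk : k ≤ n) : eOn (stdW a k (n := n)) univ =
    ∑ j ∈ range n, (if j < k then (a - 1) * j else k * (a + 1) + (j - k) * a) := by
  unfold eOn prs
  rw [Finset.sum_filter, Finset.univ_product_univ, Fintype.sum_prod_type_right]
  rw [← Fin.sum_univ_eq_sum_range (fun j => if j < k then (a - 1) * j else
    k * (a + 1) + (j - k) * a) n]
  refine Finset.sum_congr rfl fun j _ => ?_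
  have h1 : (∑ i : Fin n, if ((i, j) : Fin n × Fin n).1 < ((i, j) : Fin n × Fin n).2 then
      stdW a k ((i, j) : Fin n × Fin n).1 ((i, j) : Fin n × Fin n).2 else 0) =
      ∑ i ∈ range n, (if i < (j : ℕ) then (if (i < k ∧ (j : ℕ) < k) then a - 1 else
        if (i < k ∨ (j : ℕ) < k) then a + 1 else a) else 0) := by
    rw [← Fin.sum_univ_eq_sum_range (fun i => if i < (j : ℕ) then
      (if (i < k ∧ (j : ℕ) < k) then a - 1 else
        if (i < k ∨ (j : ℕ) < k) then a + 1 else a) else 0) n]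
    refine Finset.sum_congr rfl fun i _ => ?_
    simp only [stdW, Fin.lt_def]
  rw [h1]
  have h2 : (∑ i ∈ range n, (if i < (j : ℕ) then (if (i < k ∧ (j : ℕ) < k) then a - 1 else
        if (i < k ∨ (j : ℕ) < k) then a + 1 else a) else 0)) =
      ∑ i ∈ range (j : ℕ), (if (i < k ∧ (j : ℕ) < k) then a - 1 else
        if (i < k ∨ (j : ℕ) < k) then a + 1 else a) := by
    rw [← Finset.sum_filter]
    congr 1
    ext i
    simp only [mem_filter, mem_range]
    have := j.2
    omega
  rw [h2]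
  by_cases hj : (j : ℕ) < k
  · rw [if_pos hj]
    have : ∀ i ∈ range (j : ℕ), (if (i < k ∧ (j : ℕ) < k) then a - 1 else
        if (i < k ∨ (j : ℕ) < k) then a + 1 else a) = a - 1 := by
      intro i hi
      have hi' := mem_range.1 hi
      rw [if_pos ⟨by omega, hj⟩]
    rw [Finset.sum_congr rfl this, Finset.sum_const, card_range, smul_eq_mul, mul_comm]
  · rw [if_neg hj]
    have hjk : k ≤ (j : ℕ) := not_lt.1 hj
    have e : ∀ i ∈ range (j : ℕ), (if (i < k ∧ (j : ℕ) < k) then a - 1 else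
        if (i < k ∨ (j : ℕ) < k) then a + 1 else a) = if i < k then a + 1 else a := by
      intro i _
      simp [hj]
    rw [Finset.sum_congr rfl e]
    obtain ⟨m, hm⟩ := Nat.exists_eq_add_of_le hjk
    rw [hm, Finset.sum_range_add]
    have e1 : ∑ i ∈ range k, (if i < k then a + 1 else a) = k * (a + 1) := by
      rw [Finset.sum_congr rfl (fun i hi => if_pos (mem_range.1 hi)), Finset.sum_const,
        card_range, smul_eq_mul]
    have e2 : ∑ i ∈ range m, (if k + i < k then a + 1 else a) = m * a := by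
      rw [Finset.sum_congr rfl (fun i _ => if_neg (by omega)), Finset.sum_const,
        card_range, smul_eq_mul]
    rw [e1, e2]
    congr 1
    congr 1
    omega

theorem sig : SigStm := by
  constructor
  · have h := le_csSup (bdd_sig 3 510) ⟨stdW 3 170, stdW_isT 3 170 510, rfl⟩
    rw [eOn_std 3 170 510 (by norm_num)] at h
    have h2 : (∑ j ∈ range 510, (if j < 170 then (3 - 1) * j else 170 * (3 + 1) + (j - 170) * 3)) =
        432820 := by
      decide +kernel
    rw [h2] at h
    exact h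
  · intro a ha
    refine IsGreatest.csSup_eq ⟨⟨stdW a 1, stdW_isT a 1 4, ?_⟩, ?_⟩
    · rw [eOn_std a 1 4 (by norm_num)]
      simp [Finset.sum_range_succ]
      omega
    · rintro e ⟨w, hw, rfl⟩
      exact tsq a 4 ha w hw univ (by simp)

end Pool.Agent.R135.MG.SigN
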