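import Pool.Agent.R135.MG.Low

/-! UP: upper bound for `(4,6a+3)`-graphs. -/

namespace Pool.Agent.R135.MG

open Finset Filter

theorem dd_symm {n : ℕ} (f : Fin n → Fin n → ℝ) (hf : ∀ i j, f i j = f j i)
    (X Y : Finset (Fin n)) : dd f X Y = dd f Y X := by
  unfold dd
  rw [Finset.sum_comm]
  refine Finset.sum_congr rfl fun i _ => Finset.sum_congr rfl fun j _ => ?_
  by_cases h : i = j
  · simp [h]
  · simp [h, Ne.symm h, hf i j]

theorem dd_sdiff {n : ℕ} (f : Fin n → Fin n → ℝ) (hf : ∀ i j, f i j = f j i)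
    {T S : Finset (Fin n)} (hT : T ⊆ S) :
    dd f S S = dd f (S \ T) (S \ T) + 2 * dd f (S \ T) T + dd f T T := by
  have hl : ∀ X Y Z : Finset (Fin n), Z ⊆ X → dd f X Y = dd f (X \ Z) Y + dd f Z Y := by
    intro X Y Z hZ
    unfold dd
    rw [Finset.sum_sdiff hZ]
  rw [hl S S T hT, dd_symm f hf (S \ T) S, dd_symm f hf T S, hl S (S \ T) T hT, hl S T T hT,
    dd_symm f hf T (S \ T)]
  ring

/-- the induction statement -/
theorem rho_bounds {a : ℕ} (ha : 2 ≤ a) : 2 ≤ l2 a / l1 a ∧ l2 a / l1 a ≤ 4 := by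
  have p1 := l1_pos ha
  have h2 : (2 : ℝ) ≤ a := by exact_mod_cast ha
  have e1 : (0 : ℝ) < a := by linarith
  have e2 : (0 : ℝ) < (a : ℝ) + 1 := by linarith
  have e3 : (0 : ℝ) < (a : ℝ) - 1 := by linarith
  constructor
  · rw [le_div_iff₀ p1]
    have : Real.log ((a : ℝ) + 1) + Real.log ((a : ℝ) - 1) ≤ 2 * Real.log a := by
      rw [← Real.log_mul e2.ne' e3.ne', ← Real.log_rpow e1 2]
      refine Real.log_le_log (by positivity) ?_
      norm_num
      nlinarith
    unfold l1 l2
    linarith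
  · rw [div_le_iff₀ p1]
    have : 4 * Real.log a ≤ 3 * Real.log ((a : ℝ) + 1) + Real.log ((a : ℝ) - 1) := by
      rw [← Real.log_rpow e1 4, ← Real.log_rpow e2 3,
        ← Real.log_mul (by positivity) e3.ne']
      refine Real.log_le_log (by positivity) ?_
      norm_num
      nlinarith [mul_pos e1 e1, mul_pos (mul_pos e1 e1) e1]
    unfold l1 l2
    linarith

theorem loga_le_HH {a : ℕ} (ha : 2 ≤ a) : Real.log a ≤ HH a := by
  have p1 := l1_pos ha
  have p2 := l2_pos ha
  have : l1 a * l2 a / (l1 a + l2 a) ≤ l1 a := by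
    rw [div_le_iff₀ (by linarith)]
    nlinarith
  have h1 : l1 a = Real.log ((a : ℝ) + 1) - Real.log a := rfl
  unfold HH
  linarith

theorem log3 {a x y z : ℕ} (hx : 1 ≤ x) (hy : 1 ≤ y) (hz : 1 ≤ z) (h : x + y + z ≤ 3 * a) :
    Real.log x + Real.log y + Real.log z ≤ 3 * Real.log a := by
  have hx' : (1 : ℝ) ≤ x := by exact_mod_cast hx
  have hy' : (1 : ℝ) ≤ y := by exact_mod_cast hy
  have hz' : (1 : ℝ) ≤ z := by exact_mod_cast hz
  have hh : (x : ℝ) + y + z ≤ 3 * a := by exact_mod_cast h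
  have ha0 : (0 : ℝ) < a := by linarith
  have e : ∀ t : ℝ, 0 < t → Real.log t ≤ Real.log a + (t / a - 1) := by
    intro t ht
    have := Real.log_le_sub_one_of_pos (div_pos ht ha0)
    rw [Real.log_div ht.ne' ha0.ne'] at this
    linarith
  have e1 := e x (by linarith)
  have e2 := e y (by linarith)
  have e3 := e z (by linarith)
  have : (x : ℝ) / a + y / a + z / a ≤ 3 := by
    rw [← add_div, ← add_div, div_le_iff₀ ha0]; exact hh
  linarith

theorem log2 {a x y : ℕ} (hx : 1 ≤ x) (hy : 1 ≤ y) (h : x + y ≤ 2 * a) :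
    Real.log x + Real.log y ≤ 2 * Real.log a := by
  have hx' : (1 : ℝ) ≤ x := by exact_mod_cast hx
  have hy' : (1 : ℝ) ≤ y := by exact_mod_cast hy
  have hh : (x : ℝ) + y ≤ 2 * a := by exact_mod_cast h
  have ha0 : (0 : ℝ) < a := by linarith
  have e : ∀ t : ℝ, 0 < t → Real.log t ≤ Real.log a + (t / a - 1) := by
    intro t ht
    have := Real.log_le_sub_one_of_pos (div_pos ht ha0)
    rw [Real.log_div ht.ne' ha0.ne'] at this
    linarith
  have e1 := e x (by linarith)
  have e2 := e y (by linarith)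
  have : (x : ℝ) / a + y / a ≤ 2 := by
    rw [← add_div, div_le_iff₀ ha0]; exact hh
  linarith

section
variable {n a : ℕ} {w : Fin n → Fin n → ℕ}

theorem sq4 (hs : Symm w) (hq : IsSQ 4 (6 * a + 3) w) {x y z t : Fin n}
    (hxy : x ≠ y) (hxz : x ≠ z) (hxt : x ≠ t) (hyz : y ≠ z) (hyt : y ≠ t) (hzt : z ≠ t) :
    w x y + w x z + w x t + w y z + w y t + w z t ≤ 6 * a + 3 := by
  rw [← eOn4 w hs hxy hxz hxt hyz hyt hzt]
  refine hq _ ?_
  rw [Finset.card_insert_of_notMem (by simp [hxy, hxz, hxt]),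
    Finset.card_insert_of_notMem (by simp [hyz, hyt]),
    Finset.card_insert_of_notMem (by simp [hzt]), Finset.card_singleton]

theorem w_le (hs : Symm w) (hq : IsSQ 4 (6 * a + 3) w) (hn : 4 ≤ n) {x y : Fin n}
    (hxy : x ≠ y) : w x y ≤ 6 * a + 3 := by
  have hc : ({x, y} : Finset (Fin n)).card = 2 := Finset.card_pair hxy
  have h2 : 2 ≤ (({x, y} : Finset (Fin n))ᶜ).card := by
    rw [Finset.card_compl, hc, Fintype.card_fin]; omega
  obtain ⟨z, hz, t, ht, hzt⟩ := Finset.one_lt_card.1 (by omega : 1 < (({x, y} : Finset (Fin n))ᶜ).card)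
  simp only [Finset.mem_compl, Finset.mem_insert, Finset.mem_singleton, not_or] at hz ht
  have := sq4 hs hq hxy (Ne.symm hz.1) (Ne.symm ht.1) (Ne.symm hz.2) (Ne.symm ht.2) hzt
  omega

end

theorem up_C {n a : ℕ} (hP : PatStm) (ha : 2 ≤ a) {w : Fin n → Fin n → ℕ} (hs : Symm w)
    (hq : IsSQ 4 (6 * a + 3) w) (h1 : ∀ i j, i ≠ j → 1 ≤ w i j) (S : Finset (Fin n))
    (hC1 : ∀ x ∈ S, ∀ y ∈ S, x ≠ y → w x y ≤ a + 1)
    (hC2 : ∀ x ∈ S, ∀ y ∈ S, ∀ z ∈ S, x ≠ y → x ≠ z → y ≠ z → w x y + w y z + w x z ≤ 3 * a + 2) :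
    dd (fun i j => Real.log (w i j)) S S ≤ HH a * (S.card : ℝ) ^ 2 + l2 a * S.card := by
  classical
  have p1 := l1_pos ha
  have p2 := l2_pos ha
  have h2 : (2 : ℝ) ≤ a := by exact_mod_cast ha
  have hM : 0 < Real.log ((a : ℝ) + 1) := Real.log_pos (by linarith)
  rcases S.eq_empty_or_nonempty with h0 | hne
  · subst h0; simp [dd]
  have hm : (0 : ℝ) < S.card := by exact_mod_cast hne.card_pos
  have hrho := rho_bounds ha
  have key := hP (↥S) (fun i j => (i : Fin n) ≠ j ∧ w i j = a + 1)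
    (fun i j => (i : Fin n) ≠ j ∧ w i j + 1 ≤ a) (l2 a / l1 a) hrho.1 hrho.2
    (fun i j h => ⟨h.1.symm, by rw [hs j i]; exact h.2⟩)
    (fun i j h => ⟨h.1.symm, by rw [hs j i]; exact h.2⟩)
    (fun i h => h.1 rfl)
    (by
      intro i j k hij hjk hik
      have := hC2 i i.2 j j.2 k k.2 hij.1 hik.1 hjk.1
      omega)
    (by
      intro x y z t hxz hyt hxy hyz hzt htx
      have hxz' : (x : Fin n) ≠ z := fun h => hxz (Subtype.ext h)
      have hyt' : (y : Fin n) ≠ t := fun h => hyt (Subtype.ext h)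
      have h4 := sq4 hs hq hxy.1 hxz' htx.1.symm hyz.1 hyt' hzt.1
      rw [hs x t] at h4
      by_contra hcon
      push Not at hcon
      have c1 := hcon.1 hxz'
      have c2 := hcon.2 hyt'
      have := hxy.2
      have := hyz.2
      have := hzt.2
      have := htx.2
      omega)
    (fun _ => 1 / (S.card : ℝ)) (fun _ => by positivity)
    (by
      rw [Finset.sum_const, Finset.card_univ, Fintype.card_coe, nsmul_eq_mul]
      field_simp)
  -- the coefficients
  have hcf : ∀ i j : ↥S, l1 a * cf (fun i j : ↥S => (i : Fin n) ≠ j ∧ w i j = a + 1)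
      (fun i j : ↥S => (i : Fin n) ≠ j ∧ w i j + 1 ≤ a) (l2 a / l1 a) i j ≤
      if (i : Fin n) = j then l2 a else Real.log ((a : ℝ) + 1) - Real.log (w i j) := by
    intro i j
    unfold cf
    by_cases hij : i = j
    · rw [if_pos hij, if_pos (by rw [hij])]
      rw [mul_div_cancel₀ _ p1.ne']
    · have hij' : (i : Fin n) ≠ j := fun h => hij (Subtype.ext h)
      rw [if_neg hij, if_neg hij']
      have hle := hC1 i i.2 j j.2 hij'
      have hge := h1 i j hij'
      by_cases hz : w i j = a + 1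
      · rw [if_pos ⟨hij', hz⟩, hz]
        push_cast
        simp
      · rw [if_neg (fun h => hz h.2)]
        by_cases hw : w i j + 1 ≤ a
        · rw [if_pos ⟨hij', hw⟩, mul_div_cancel₀ _ p1.ne']
          have c1 : (w i j : ℝ) ≤ (a : ℝ) - 1 := by
            have : ((w i j + 1 : ℕ) : ℝ) ≤ a := by exact_mod_cast hw
            push_cast at this
            linarith
          have c2 : (0 : ℝ) < w i j := by exact_mod_cast hge
          have := Real.log_le_log c2 c1
          unfold l2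
          linarith
        · rw [if_neg (fun h => hw h.2)]
          have : w i j = a := by omega
          rw [this]
          unfold l1
          linarith
  have hsum := Finset.sum_le_sum fun i (_ : i ∈ (univ : Finset ↥S)) =>
    Finset.sum_le_sum fun j (_ : j ∈ (univ : Finset ↥S)) => hcf i j
  have hR : (∑ i : ↥S, ∑ j : ↥S, (if (i : Fin n) = j then l2 a else
      Real.log ((a : ℝ) + 1) - Real.log (w i j))) =
      (S.card : ℝ) * l2 a + (S.card : ℝ) * (S.card - 1) * Real.log ((a : ℝ) + 1) -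
        dd (fun i j => Real.log (w i j)) S S := by
    have e1 : (∑ i : ↥S, ∑ j : ↥S, (if (i : Fin n) = j then l2 a else
      Real.log ((a : ℝ) + 1) - Real.log (w i j))) = ∑ i ∈ S, ∑ j ∈ S, (if i = j then l2 a else
      Real.log ((a : ℝ) + 1) - Real.log (w i j)) := by
      rw [← Finset.sum_coe_sort S (fun i => ∑ j ∈ S, (if i = j then l2 a else
        Real.log ((a : ℝ) + 1) - Real.log (w i j)))]
      refine Finset.sum_congr rfl fun i _ => ?_
      rw [← Finset.sum_coe_sort S (fun j => (if (i : Fin n) = j then l2 a else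
        Real.log ((a : ℝ) + 1) - Real.log (w i j)))]
    rw [e1]
    unfold dd
    have e2 : ∀ i j : Fin n, (if i = j then l2 a else Real.log ((a : ℝ) + 1) - Real.log (w i j)) =
        Real.log ((a : ℝ) + 1) + (if i = j then l2 a - Real.log ((a : ℝ) + 1) else 0) -
          (if i = j then 0 else Real.log (w i j)) := by
      intro i j; split_ifs <;> ring
    simp_rw [e2, Finset.sum_sub_distrib, Finset.sum_add_distrib]
    have e3 : (∑ i ∈ S, ∑ j ∈ S, (if i = j then l2 a - Real.log ((a : ℝ) + 1) else 0)) =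
        S.card * (l2 a - Real.log ((a : ℝ) + 1)) := by
      rw [← nsmul_eq_mul, ← Finset.sum_const]
      refine Finset.sum_congr rfl fun i hi => ?_
      rw [Finset.sum_ite_eq]
      simp [hi]
    rw [e3]
    simp only [Finset.sum_const, nsmul_eq_mul]
    ring
  rw [hR] at hsum
  -- the quadratic form
  have hL : (∑ i : ↥S, ∑ j : ↥S, l1 a * cf (fun i j : ↥S => (i : Fin n) ≠ j ∧ w i j = a + 1)
      (fun i j : ↥S => (i : Fin n) ≠ j ∧ w i j + 1 ≤ a) (l2 a / l1 a) i j) =
      l1 a * (S.card : ℝ) ^ 2 * ∑ i : ↥S, ∑ j : ↥S, cf (fun i j : ↥S => (i : Fin n) ≠ j ∧ w i j = a + 1)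
      (fun i j : ↥S => (i : Fin n) ≠ j ∧ w i j + 1 ≤ a) (l2 a / l1 a) i j * (1 / (S.card : ℝ)) *
        (1 / (S.card : ℝ)) := by
    rw [Finset.mul_sum]
    refine Finset.sum_congr rfl fun i _ => ?_
    rw [Finset.mul_sum]
    refine Finset.sum_congr rfl fun j _ => ?_
    field_simp
  rw [hL] at hsum
  have hmu : l1 a * l2 a / (l1 a + l2 a) = l1 a * (l2 a / l1 a / (1 + l2 a / l1 a)) := by
    have : l1 a + l2 a ≠ 0 := by linarith
    field_simp
  have h3 : l1 a * l2 a / (l1 a + l2 a) * (S.card : ℝ) ^ 2 ≤ l1 a * (S.card : ℝ) ^ 2 *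
      ∑ i : ↥S, ∑ j : ↥S, cf (fun i j : ↥S => (i : Fin n) ≠ j ∧ w i j = a + 1)
      (fun i j : ↥S => (i : Fin n) ≠ j ∧ w i j + 1 ≤ a) (l2 a / l1 a) i j * (1 / (S.card : ℝ)) *
        (1 / (S.card : ℝ)) := by
    rw [hmu]
    have := mul_le_mul_of_nonneg_left key (by positivity : 0 ≤ l1 a * (S.card : ℝ) ^ 2)
    linarith
  have hHH : HH a = Real.log ((a : ℝ) + 1) - l1 a * l2 a / (l1 a + l2 a) := rfl
  rw [hHH]
  nlinarith [mul_pos hm hM]

theorem up_ind {n a : ℕ} (hP : PatStm) (ha : 2 ≤ a) (hn : 4 ≤ n) {w : Fin n → Fin n → ℕ}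
    (hs : Symm w) (hq : IsSQ 4 (6 * a + 3) w) (h1 : ∀ i j, i ≠ j → 1 ≤ w i j) :
    ∀ (m : ℕ) (S : Finset (Fin n)), S.card = m →
      dd (fun i j => Real.log (w i j)) S S ≤
        HH a * (S.card : ℝ) ^ 2 + 2 * (Real.log (6 * a + 3) + l2 a) * S.card := by
  have p1 := l1_pos ha
  have p2 := l2_pos ha
  have h2 : (2 : ℝ) ≤ a := by exact_mod_cast ha
  have hloga : 0 ≤ Real.log a := Real.log_nonneg (by linarith)
  have hHa := loga_le_HH ha
  have hbig : 0 < Real.log (6 * (a : ℝ) + 3) := Real.log_pos (by linarith)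
  have hsymL : ∀ i j, (fun i j => Real.log (w i j)) i j = (fun i j => Real.log (w i j)) j i := by
    intro i j; simp only []; rw [hs i j]
  have hlw : ∀ x y : Fin n, x ≠ y → Real.log (w x y) ≤ Real.log (6 * (a : ℝ) + 3) := by
    intro x y hxy
    have := w_le hs hq hn hxy
    have c2 : (0 : ℝ) < w x y := by exact_mod_cast h1 x y hxy
    refine Real.log_le_log c2 ?_
    exact_mod_cast this
  intro m
  induction m using Nat.strong_induction_on with
  | _ m ih =>
  intro S hSm
  by_cases hA : ∃ x ∈ S, ∃ y ∈ S, ∃ z ∈ S, x ≠ y ∧ x ≠ z ∧ y ≠ z ∧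
      3 * a + 3 ≤ w x y + w y z + w x z
  · obtain ⟨x, hx, y, hy, z, hz, hxy, hxz, hyz, hsum⟩ := hA
    have hTS : ({x, y, z} : Finset (Fin n)) ⊆ S := by
      intro t ht
      simp only [Finset.mem_insert, Finset.mem_singleton] at ht
      rcases ht with rfl | rfl | rfl <;> assumption
    have hTc : ({x, y, z} : Finset (Fin n)).card = 3 := by
      rw [Finset.card_insert_of_notMem (by simp [hxy, hxz]),
        Finset.card_insert_of_notMem (by simp [hyz]), Finset.card_singleton]
    have hcard : (S \ {x, y, z}).card + 3 = S.card := by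
      rw [← hTc]; exact Finset.card_sdiff_add_card_eq_card hTS
    have hih := ih (S \ {x, y, z}).card (by omega) _ rfl
    rw [dd_sdiff _ hsymL hTS]
    have hcross : dd (fun i j => Real.log (w i j)) (S \ {x, y, z}) {x, y, z} ≤
        (S \ {x, y, z}).card * (3 * Real.log a) := by
      unfold dd
      rw [← nsmul_eq_mul, ← Finset.sum_const]
      refine Finset.sum_le_sum fun v hv => ?_
      simp only [Finset.mem_sdiff, Finset.mem_insert, Finset.mem_singleton, not_or] at hv
      obtain ⟨_, hvx, hvy, hvz⟩ := hv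
      rw [Finset.sum_insert (by simp [hxy, hxz]), Finset.sum_insert (by simp [hyz]),
        Finset.sum_singleton, if_neg hvx, if_neg hvy, if_neg hvz]
      have h4 := sq4 hs hq hvx hvy hvz hxy hxz hyz
      have := log3 (a := a) (h1 v x hvx) (h1 v y hvy) (h1 v z hvz) (by omega)
      linarith
    have hTT : dd (fun i j => Real.log (w i j)) {x, y, z} {x, y, z} ≤
        6 * Real.log (6 * (a : ℝ) + 3) := by
      unfold dd
      have m1 : x ∉ ({y, z} : Finset (Fin n)) := by simp [hxy, hxz]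
      have m2 : y ∉ ({z} : Finset (Fin n)) := by simp [hyz]
      simp only [Finset.sum_insert m1, Finset.sum_insert m2, Finset.sum_singleton, if_true, hxy,
        hxz, hyz, hxy.symm, hxz.symm, hyz.symm, if_false]
      have a1 := hlw x y hxy
      have a2 := hlw x z hxz
      have a3 := hlw y z hyz
      have a4 := hlw y x hxy.symm
      have a5 := hlw z x hxz.symm
      have a6 := hlw z y hyz.symm
      linarith
    have hcr : (S.card : ℝ) = (S \ {x, y, z}).card + 3 := by exact_mod_cast hcard.symm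
    rw [hcr]
    have hk0 : (0 : ℝ) ≤ ((S \ {x, y, z}).card : ℝ) := Nat.cast_nonneg _
    nlinarith [mul_nonneg hk0 (sub_nonneg.2 hHa)]
  by_cases hB : ∃ x ∈ S, ∃ y ∈ S, x ≠ y ∧ a + 2 ≤ w x y
  · obtain ⟨x, hx, y, hy, hxy, hwxy⟩ := hB
    have hTS : ({x, y} : Finset (Fin n)) ⊆ S := by
      intro t ht
      simp only [Finset.mem_insert, Finset.mem_singleton] at ht
      rcases ht with rfl | rfl <;> assumption
    have hTc : ({x, y} : Finset (Fin n)).card = 2 := Finset.card_pair hxy
    have hcard : (S \ {x, y}).card + 2 = S.card := by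
      rw [← hTc]; exact Finset.card_sdiff_add_card_eq_card hTS
    have hih := ih (S \ {x, y}).card (by omega) _ rfl
    rw [dd_sdiff _ hsymL hTS]
    have hcross : dd (fun i j => Real.log (w i j)) (S \ {x, y}) {x, y} ≤
        (S \ {x, y}).card * (2 * Real.log a) := by
      unfold dd
      rw [← nsmul_eq_mul, ← Finset.sum_const]
      refine Finset.sum_le_sum fun v hv => ?_
      simp only [Finset.mem_sdiff, Finset.mem_insert, Finset.mem_singleton, not_or] at hv
      obtain ⟨hvS, hvx, hvy⟩ := hv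
      rw [Finset.sum_insert (by simp [hxy]), Finset.sum_singleton, if_neg hvx, if_neg hvy]
      have h3 : w v x + w x y + w v y < 3 * a + 3 := by
        by_contra hcon
        push Not at hcon
        exact hA ⟨v, hvS, x, hx, y, hy, hvx, hvy, hxy, hcon⟩
      have := log2 (a := a) (h1 v x hvx) (h1 v y hvy) (by omega)
      linarith
    have hTT : dd (fun i j => Real.log (w i j)) {x, y} {x, y} ≤
        2 * Real.log (6 * (a : ℝ) + 3) := by
      unfold dd
      have m1 : x ∉ ({y} : Finset (Fin n)) := by simp [hxy]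
      simp only [Finset.sum_insert m1, Finset.sum_singleton, if_true, hxy, hxy.symm, if_false]
      have a1 := hlw x y hxy
      have a4 := hlw y x hxy.symm
      linarith
    have hcr : (S.card : ℝ) = (S \ {x, y}).card + 2 := by exact_mod_cast hcard.symm
    rw [hcr]
    have hk0 : (0 : ℝ) ≤ ((S \ {x, y}).card : ℝ) := Nat.cast_nonneg _
    nlinarith [mul_nonneg hk0 (sub_nonneg.2 hHa)]
  · have hC := up_C hP ha hs hq h1 S
      (fun x hx y hy hxy => by
        by_contra hcon
        push Not at hcon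
        exact hB ⟨x, hx, y, hy, hxy, hcon⟩)
      (fun x hx y hy z hz hxy hxz hyz => by
        by_contra hcon
        push Not at hcon
        exact hA ⟨x, hx, y, hy, z, hz, hxy, hxz, hyz, hcon⟩)
    refine le_trans hC ?_
    have hk0 : (0 : ℝ) ≤ (S.card : ℝ) := Nat.cast_nonneg _
    nlinarith [mul_nonneg hk0 p2.le, mul_nonneg hk0 hbig.le]

theorem up : UpStm := by
  intro hP a ha
  refine ⟨Real.log (6 * a + 3) + l2 a, fun n hn w hs hq h1 => ?_⟩
  have h := up_ind hP ha hn hs hq h1 _ univ rfl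
  rw [← log_prodW w hs h1, Finset.card_univ, Fintype.card_fin] at h
  linarith

end Pool.Agent.R135.MG
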